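import Mathlib
import Pool.Agent.Helper90.FiveModSix

/-!
# Six consecutive integers: the parity of the exponents

`N = 2^a 3^b > 2304` is the multiple of 6 among `n, ..., n+5`, `k = N - n`.
If none of the six integers has three distinct prime factors then `a` and `b` have the same
parity; they are even if `k = 0` and odd if `k = 2, 4, 5`.
-/

open scoped ArithmeticFunction.omega

namespace Pool.Agent.Helper13.Six

open Pool.Agent.Helper90.FiveModSix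

/-- `p^j + 1 = 2^x 3^y` is impossible for `p = 5, 7, 13` when the right side is large -/
lemma M1 {p j x y : ℕ} (hp : p = 5 ∨ p = 7 ∨ p = 13) (hx : 1 ≤ x) (hy : 1 ≤ y)
    (hxy : 2 ≤ x ∨ 2 ≤ y) (h : p ^ j + 1 = 2 ^ x * 3 ^ y) : False := by
  obtain ⟨y, rfl⟩ : ∃ y', y = y' + 1 := ⟨y - 1, by omega⟩
  obtain ⟨x, rfl⟩ : ∃ x', x = x' + 1 := ⟨x - 1, by omega⟩
  have h3 : (p ^ j + 1) % 3 = 0 := by
    rw [h]
    have : 2 ^ (x + 1) * 3 ^ (y + 1) = 3 * (2 ^ (x + 1) * 3 ^ y) := by ring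
    omega
  rcases hp with rfl | rfl | rfl
  · rcases Nat.eq_zero_or_pos x with hx0 | hx0
    · subst hx0
      have hy2 : 1 ≤ y := by omega
      obtain ⟨z, rfl⟩ : ∃ z, y = z + 1 := ⟨y - 1, by omega⟩
      have h9 : (5 ^ j + 1) % 9 = 0 := by
        rw [h]
        have : 2 ^ (0 + 1) * 3 ^ (z + 1 + 1) = 9 * (2 * 3 ^ z) := by ring
        omega
      have hj : j % 6 = 3 := by
        have e : 5 ^ j % 9 = 5 ^ (j % 6) % 9 := per (k := 6) (by norm_num) j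
        have key : ∀ r < 6, (5 ^ r % 9 + 1) % 9 = 0 → r = 3 := by decide
        exact key (j % 6) (Nat.mod_lt _ (by norm_num)) (by rw [← e]; omega)
      have h7 : (5 ^ j + 1) % 7 = 0 := by
        have e : 5 ^ j % 7 = 5 ^ (j % 6) % 7 := per (k := 6) (by norm_num) j
        rw [hj] at e
        norm_num at e
        omega
      rw [h] at h7
      exact not_dvd_23 (by norm_num) (by norm_num) _ _ (Nat.dvd_of_mod_eq_zero h7)
    · obtain ⟨z, rfl⟩ : ∃ z, x = z + 1 := ⟨x - 1, by omega⟩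
      have h4 : (5 ^ j + 1) % 4 = 0 := by
        rw [h]
        have : 2 ^ (z + 1 + 1) * 3 ^ (y + 1) = 4 * (2 ^ z * 3 ^ (y + 1)) := by ring
        omega
      have e : 5 ^ j % 4 = 1 := by rw [Nat.pow_mod]; norm_num
      omega
  · have e : 7 ^ j % 3 = 1 := by rw [Nat.pow_mod]; norm_num
    omega
  · have e : 13 ^ j % 3 = 1 := by rw [Nat.pow_mod]; norm_num
    omega

lemma prime_not_two {p : ℕ} (hp : p = 5 ∨ p = 7 ∨ p = 13) : 2 ≠ p := by
  rcases hp with rfl | rfl | rfl <;> norm_num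

lemma prime_not_three {p : ℕ} (hp : p = 5 ∨ p = 7 ∨ p = 13) : 3 ≠ p := by
  rcases hp with rfl | rfl | rfl <;> norm_num

/-- three distinct prime factors of `x^4 - 1` -/
lemma fourth {x : ℕ} (hx : 3 ≤ x) (he : x % 2 = 0) : 3 ≤ ω (x ^ 4 - 1) := by
  obtain ⟨w, rfl⟩ : ∃ w, x = w + 1 := ⟨x - 1, by omega⟩
  have e : (w + 1) ^ 4 - 1 = w * (w + 2) * ((w + 1) ^ 2 + 1) := by
    have : (w + 1) ^ 4 = w * (w + 2) * ((w + 1) ^ 2 + 1) + 1 := by ring
    omega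
  rw [e]
  have h1 : (w + 1) ^ 2 + 1 = w * (w + 2) + 2 := by ring
  have hodd : (w * (w + 2)) % 2 = 1 := by
    have h2 : w % 2 = 1 := by omega
    have h3 : (w + 2) % 2 = 1 := by omega
    rw [Nat.mul_mod, h2, h3]
  have hc : (w * (w + 2)).Coprime (w * (w + 2) + 2) := by
    have : Nat.Coprime (w * (w + 2)) 2 := by
      rw [Nat.coprime_two_right]
      exact Nat.odd_iff.mpr hodd
    simpa using this
  refine three_factors (by omega) (by omega) (by rw [h1]; omega) ?_ ?_ ?_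
  · have h2 : Nat.Coprime w 2 := by
      rw [Nat.coprime_two_right]
      exact Nat.odd_iff.mpr (by omega)
    simpa using h2
  · rw [h1]
    exact Nat.Coprime.coprime_dvd_left (dvd_mul_right _ _) hc
  · rw [h1]
    exact Nat.Coprime.coprime_dvd_left (dvd_mul_left _ _) hc

lemma omega_le_of_dvd {m n : ℕ} (hn : n ≠ 0) (h : m ∣ n) : ω m ≤ ω n := by
  rw [omega_card, omega_card]
  exact Finset.card_le_card (Nat.primeFactors_mono h hn)

/-- three distinct prime factors of `2 (3^(4m) - 1)` -/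
lemma three4 {m : ℕ} (hm : 2 ≤ m) : 3 ≤ ω (3 ^ (4 * m) - 1) := by
  -- 2, an odd part of 9^m + 1, and an odd part of 3^m ± 1
  set x := 3 ^ m with hx
  have hx9 : 9 ≤ x := by
    calc 9 = 3 ^ 2 := by norm_num
      _ ≤ 3 ^ m := Nat.pow_le_pow_right (by norm_num) hm
  have hx2 : x % 2 = 1 := by rw [hx, Nat.pow_mod]; norm_num
  have e : 3 ^ (4 * m) - 1 = (x - 1) * (x + 1) * (x ^ 2 + 1) := by
    obtain ⟨w, hw⟩ : ∃ w, x = w + 1 := ⟨x - 1, by omega⟩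
    have h1 : 3 ^ (4 * m) = x ^ 4 := by rw [hx, ← pow_mul, mul_comm]
    rw [h1, hw]
    have : (w + 1) ^ 4 = (w + 1 - 1) * (w + 1 + 1) * ((w + 1) ^ 2 + 1) + 1 := by
      rw [Nat.add_sub_cancel]; ring
    omega
  rw [e]
  obtain ⟨t, ht⟩ : ∃ t, x = 2 * t + 1 := ⟨x / 2, by omega⟩
  have e1 : x - 1 = 2 * t := by omega
  have e2 : x + 1 = 2 * (t + 1) := by omega
  have e3 : x ^ 2 + 1 = 2 * (2 * t * (t + 1) + 1) := by rw [ht]; ring
  rw [e1, e2, e3]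
  set s := if t % 2 = 1 then t else t + 1 with hs
  have hsd : s ∣ t * (t + 1) := by
    rw [hs]
    split_ifs
    · exact dvd_mul_right _ _
    · exact dvd_mul_left _ _
  have hsodd : s % 2 = 1 := by
    rw [hs]; split_ifs <;> omega
  have hs4 : 4 ≤ s := by
    rw [hs]; split_ifs <;> omega
  set u := 2 * t * (t + 1) + 1 with hu
  have hsu : s.Coprime u := by
    obtain ⟨c, hc⟩ := hsd
    have : u = s * (2 * c) + 1 := by rw [hu, mul_assoc, hc]; ring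
    rw [this]
    simp
  have hu1 : 1 < u := by
    have : 0 < t * (t + 1) := Nat.mul_pos (by omega) (by omega)
    rw [hu, mul_assoc]; omega
  have h3 : 3 ≤ ω (2 * s * u) := three_factors (by norm_num) (by omega) hu1
    (by rw [Nat.coprime_two_left]; exact Nat.odd_iff.mpr hsodd)
    (by rw [Nat.coprime_two_left]; exact Nat.odd_iff.mpr (by rw [hu, mul_assoc]; omega)) hsu
  refine h3.trans (omega_le_of_dvd ?_ ?_)
  · have ht0 : 0 < t := by omega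
    have : 0 < 2 * t * (2 * (t + 1)) * (2 * u) := by positivity
    omega
  · obtain ⟨c, hc⟩ := hsd
    refine ⟨4 * c, ?_⟩
    calc 2 * t * (2 * (t + 1)) * (2 * u) = 8 * (t * (t + 1)) * u := by ring
      _ = 8 * (s * c) * u := by rw [hc]
      _ = 2 * s * u * (4 * c) := by ring

/-- three distinct prime factors of `3^(2m) - 1`, `m` odd, `m ≥ 3` -/
lemma three2 {m : ℕ} (hm : 3 ≤ m) (ho : m % 2 = 1) : 3 ≤ ω (3 ^ (2 * m) - 1) := by
  set x := 3 ^ m with hx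
  have hx27 : 27 ≤ x := by
    calc 27 = 3 ^ 3 := by norm_num
      _ ≤ 3 ^ m := Nat.pow_le_pow_right (by norm_num) hm
  have hx8 : x % 8 = 3 := by
    rw [hx, pow3_mod8, ho]; norm_num
  obtain ⟨t, ht⟩ : ∃ t, x = 8 * t + 3 := ⟨x / 8, by omega⟩
  have e : 3 ^ (2 * m) - 1 = 8 * ((4 * t + 1) * (2 * t + 1)) := by
    have h1 : 3 ^ (2 * m) = x ^ 2 := by rw [hx, ← pow_mul, mul_comm]
    rw [h1, ht]
    have : (8 * t + 3) ^ 2 = 8 * ((4 * t + 1) * (2 * t + 1)) + 1 := by ring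
    omega
  rw [e]
  have hc : (4 * t + 1).Coprime (2 * t + 1) := by
    have : 4 * t + 1 = 2 * t + (2 * t + 1) := by ring
    rw [this, Nat.coprime_add_self_left]
    simp
  have h3 : 3 ≤ ω (2 * (4 * t + 1) * (2 * t + 1)) := three_factors (by norm_num) (by omega)
    (by omega) (by rw [Nat.coprime_two_left]; exact Nat.odd_iff.mpr (by omega))
    (by rw [Nat.coprime_two_left]; exact Nat.odd_iff.mpr (by omega)) hc
  refine h3.trans (omega_le_of_dvd ?_ ⟨4, by ring⟩)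
  have : 0 < (4 * t + 1) * (2 * t + 1) := by positivity
  omega

lemma mod4_of_pow2 {m : ℕ} (h : 2 ^ m % 5 = 1) : m % 4 = 0 := by
  rw [per (k := 4) (by norm_num)] at h
  have key : ∀ r < 4, 2 ^ r % 5 = 1 → r = 0 := by decide
  exact key (m % 4) (Nat.mod_lt _ (by norm_num)) (by rw [h])

lemma mod4_of_pow3 {m : ℕ} (h : 3 ^ m % 5 = 1) : m % 4 = 0 := by
  rw [per (k := 4) (by norm_num)] at h
  have key : ∀ r < 4, 3 ^ r % 5 = 1 → r = 0 := by decide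
  exact key (m % 4) (Nat.mod_lt _ (by norm_num)) (by rw [h])

/-- `p | N - 2`, `a ≥ 2` -/
lemma killm2 {p a b : ℕ} (hp : p = 5 ∨ p = 7 ∨ p = 13) (ha : 2 ≤ a) (hb : 1 ≤ b)
    (hN : 2304 < 2 ^ a * 3 ^ b) (hω : ω (2 ^ a * 3 ^ b - 2) ≤ 2) (hd : p ∣ 2 ^ a * 3 ^ b - 2) :
    False := by
  obtain ⟨a, rfl⟩ : ∃ a', a = a' + 2 := ⟨a - 2, by omega⟩
  have e1 : 2 ^ (a + 2) * 3 ^ b = 4 * (2 ^ a * 3 ^ b) := by ring
  have e2 : 2 ^ (a + 1) * 3 ^ b = 2 * (2 ^ a * 3 ^ b) := by ring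
  have hf : 2 ^ (a + 2) * 3 ^ b - 2 = 2 * (2 ^ (a + 1) * 3 ^ b - 1) := by omega
  obtain ⟨i, j, hi, hj, h⟩ := two_primes (by omega) Nat.prime_two (prime_of hp)
    (prime_not_two hp) ⟨_, hf⟩ hd hω
  obtain ⟨i, rfl⟩ : ∃ i', i = i' + 1 := ⟨i - 1, by omega⟩
  have e3 : 2 ^ (i + 1) * p ^ j = 2 * (2 ^ i * p ^ j) := by ring
  have hi0 : i = 0 := by
    by_contra hc
    obtain ⟨i', rfl⟩ : ∃ i', i = i' + 1 := ⟨i - 1, by omega⟩
    have e4 : 2 ^ (i' + 1) * p ^ j = 2 * (2 ^ i' * p ^ j) := by ring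
    omega
  subst hi0
  rw [pow_zero, one_mul] at e3
  refine M1 (x := a + 1) (y := b) (j := j) hp (by omega) hb ?_ (by omega)
  by_contra hc
  have h1 : a = 0 := by omega
  have h2 : b = 1 := by omega
  subst h1 h2
  norm_num at hN

/-- `5 | N - 2`, `a ≥ 1` -/
lemma killm2' {a b : ℕ} (ha : 1 ≤ a) (hb : 1 ≤ b)
    (hN : 2304 < 2 ^ a * 3 ^ b) (hω : ω (2 ^ a * 3 ^ b - 2) ≤ 2) (hd : 5 ∣ 2 ^ a * 3 ^ b - 2) :
    False := by
  rcases Nat.lt_or_ge a 2 with h1 | h1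
  · have : a = 1 := by omega
    subst this
    rw [pow_one] at hN hω hd
    have hb4 : b % 4 = 0 := mod4_of_pow3 (by omega)
    obtain ⟨m, rfl⟩ : ∃ m, b = 4 * m := ⟨b / 4, by omega⟩
    have hm : 2 ≤ m := by
      by_contra hc
      have : m = 1 := by omega
      subst this
      norm_num at hN
    have h3 := three4 hm
    have h4 : ω (3 ^ (4 * m) - 1) ≤ ω (2 * 3 ^ (4 * m) - 2) :=
      omega_le_of_dvd (by omega) ⟨2, by omega⟩
    omega
  · exact killm2 (by tauto) h1 hb hN hω hd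

/-- `5 | N - 3` -/
lemma killm3 {a b : ℕ} (ha : 1 ≤ a) (hb : 1 ≤ b)
    (hN : 2304 < 2 ^ a * 3 ^ b) (hω : ω (2 ^ a * 3 ^ b - 3) ≤ 2) (hd : 5 ∣ 2 ^ a * 3 ^ b - 3) :
    False := by
  rcases Nat.lt_or_ge b 2 with h1 | h1
  · have : b = 1 := by omega
    subst this
    rw [pow_one] at hN hω hd
    have ha4 : a % 4 = 0 := mod4_of_pow2 (by omega)
    obtain ⟨m, rfl⟩ : ∃ m, a = 4 * m := ⟨a / 4, by omega⟩
    have hm : 2 ≤ m := by
      by_contra hc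
      have : m = 1 := by omega
      subst this
      norm_num at hN
    have h2m : 4 ≤ 2 ^ m := by
      calc 4 = 2 ^ 2 := by norm_num
        _ ≤ 2 ^ m := Nat.pow_le_pow_right (by norm_num) hm
    have heven : 2 ^ m % 2 = 0 := by
      obtain ⟨m', rfl⟩ : ∃ m', m = m' + 1 := ⟨m - 1, by omega⟩
      have : 2 ^ (m' + 1) = 2 * 2 ^ m' := by ring
      omega
    have h3 := fourth (x := 2 ^ m) (by omega) heven
    have e : (2 ^ m) ^ 4 = 2 ^ (4 * m) := by rw [← pow_mul, mul_comm]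
    rw [e] at h3
    have h4 : ω (2 ^ (4 * m) - 1) ≤ ω (2 ^ (4 * m) * 3 - 3) :=
      omega_le_of_dvd (by omega) ⟨3, by omega⟩
    omega
  · obtain ⟨b, rfl⟩ : ∃ b', b = b' + 2 := ⟨b - 2, by omega⟩
    have e1 : 2 ^ a * 3 ^ (b + 2) = 9 * (2 ^ a * 3 ^ b) := by ring
    have e2 : 2 ^ a * 3 ^ (b + 1) = 3 * (2 ^ a * 3 ^ b) := by ring
    have hf : 2 ^ a * 3 ^ (b + 2) - 3 = 3 * (2 ^ a * 3 ^ (b + 1) - 1) := by omega
    obtain ⟨i, j, hi, hj, h⟩ := two_primes (by omega) Nat.prime_three Nat.prime_five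
      (by norm_num) ⟨_, hf⟩ hd hω
    obtain ⟨i, rfl⟩ : ∃ i', i = i' + 1 := ⟨i - 1, by omega⟩
    have e3 : 3 ^ (i + 1) * 5 ^ j = 3 * (3 ^ i * 5 ^ j) := by ring
    have hi0 : i = 0 := by
      by_contra hc
      obtain ⟨i', rfl⟩ : ∃ i', i = i' + 1 := ⟨i - 1, by omega⟩
      have e4 : 3 ^ (i' + 1) * 5 ^ j = 3 * (3 ^ i' * 5 ^ j) := by ring
      omega
    subst hi0
    rw [pow_zero, one_mul] at e3
    refine M1 (p := 5) (x := a) (y := b + 1) (j := j) (by tauto) ha (by omega) ?_ (by omega)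
    by_contra hc
    have h1 : a = 1 := by omega
    have h2 : b = 0 := by omega
    subst h1 h2
    norm_num at hN

/-- `N - 4` with `a, b` even -/
lemma killm4 {c d : ℕ} (hc : 1 ≤ c) (hd : 1 ≤ d)
    (hN : 2304 < 2 ^ (2 * c) * 3 ^ (2 * d)) (hω : ω (2 ^ (2 * c) * 3 ^ (2 * d) - 4) ≤ 2) :
    False := by
  obtain ⟨c, rfl⟩ : ∃ c', c = c' + 1 := ⟨c - 1, by omega⟩
  rcases Nat.eq_zero_or_pos c with h0 | h0
  · subst h0
    have hd3 : 3 ≤ d := by
      by_contra hcon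
      have : d ≤ 2 := by omega
      interval_cases d <;> norm_num at hN
    have e : 2 ^ (2 * (0 + 1)) * 3 ^ (2 * d) - 4 = 4 * (3 ^ (2 * d) - 1) := by
      have : 2 ^ (2 * (0 + 1)) = 4 := by norm_num
      rw [this]; omega
    have h1 : 3 ≤ ω (3 ^ (2 * d) - 1) := by
      rcases Nat.mod_two_eq_zero_or_one d with h2 | h2
      · obtain ⟨m, rfl⟩ : ∃ m, d = 2 * m := ⟨d / 2, by omega⟩
        have := three4 (m := m) (by omega)
        rw [show 2 * (2 * m) = 4 * m by ring]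
        exact this
      · exact three2 hd3 h2
    have hpos : 1 < 3 ^ (2 * d) := Nat.one_lt_pow (by omega) (by norm_num)
    have h4 : ω (3 ^ (2 * d) - 1) ≤ ω (2 ^ (2 * (0 + 1)) * 3 ^ (2 * d) - 4) :=
      omega_le_of_dvd (by rw [e]; omega) ⟨4, by rw [e]; ring⟩
    omega
  · set y := 2 ^ c * 3 ^ d with hy
    have e : 2 ^ (2 * (c + 1)) * 3 ^ (2 * d) = 4 * y ^ 2 := by
      rw [hy, mul_pow, ← pow_mul, ← pow_mul, mul_add, pow_add, mul_comm 2 c, mul_comm 2 d]; ring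
    have h2y : y % 2 = 0 := by
      obtain ⟨c', rfl⟩ : ∃ c', c = c' + 1 := ⟨c - 1, by omega⟩
      rw [hy, pow_succ]
      have : 2 ^ c' * 2 * 3 ^ d = 2 * (2 ^ c' * 3 ^ d) := by ring
      omega
    have hy24 : 24 < y := by
      by_contra hcon
      have h1 : y ^ 2 ≤ 24 ^ 2 := Nat.pow_le_pow_left (by omega) 2
      omega
    obtain ⟨z, hz⟩ : ∃ z, y = z + 1 := ⟨y - 1, by omega⟩
    have hfac : 2 ^ (2 * (c + 1)) * 3 ^ (2 * d) - 4 = 4 * (z * (z + 2)) := by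
      rw [e, hz]
      have : (z + 1) ^ 2 = z * (z + 2) + 1 := by ring
      omega
    have hcop : z.Coprime (z + 2) := by
      have h1 : Nat.Coprime z 2 := by
        rw [Nat.coprime_two_right]
        exact Nat.odd_iff.mpr (by omega)
      simpa using h1
    have h3 : 3 ≤ ω (2 * z * (z + 2)) := three_factors (by norm_num) (by omega) (by omega)
      (by rw [Nat.coprime_two_left]; exact Nat.odd_iff.mpr (by omega))
      (by rw [Nat.coprime_two_left]; exact Nat.odd_iff.mpr (by omega)) hcop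
    have hpos : 0 < z * (z + 2) := Nat.mul_pos (by omega) (by omega)
    have h4 : ω (2 * z * (z + 2)) ≤ ω (2 ^ (2 * (c + 1)) * 3 ^ (2 * d) - 4) := by
      rw [hfac]
      exact omega_le_of_dvd (by omega) ⟨2, by ring⟩
    omega

/-- `p | N - 1` with `a, b` even -/
lemma killm1 {p c d : ℕ} (hp : p = 5 ∨ p = 7 ∨ p = 13) (hc : 1 ≤ c) (hd : 1 ≤ d)
    (hN : 2304 < 2 ^ (2 * c) * 3 ^ (2 * d)) (hω : ω (2 ^ (2 * c) * 3 ^ (2 * d) - 1) ≤ 2)
    (hdv : p ∣ 2 ^ (2 * c) * 3 ^ (2 * d) - 1) : False := by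
  set x := 2 ^ c * 3 ^ d with hx
  have hNx : 2 ^ (2 * c) * 3 ^ (2 * d) = x ^ 2 := by
    rw [hx, mul_pow, ← pow_mul, ← pow_mul, mul_comm 2 c, mul_comm 2 d]
  have hx48 : 48 < x := by
    by_contra hcon
    have : x ≤ 48 := by omega
    have : x ^ 2 ≤ 48 ^ 2 := Nat.pow_le_pow_left this 2
    omega
  have h2x : x % 2 = 0 := by
    obtain ⟨c', rfl⟩ : ∃ c', c = c' + 1 := ⟨c - 1, by omega⟩
    rw [hx, pow_succ]
    have : 2 ^ c' * 2 * 3 ^ d = 2 * (2 ^ c' * 3 ^ d) := by ring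
    omega
  obtain ⟨z, hz⟩ : ∃ z, x = z + 1 := ⟨x - 1, by omega⟩
  have hfac : 2 ^ (2 * c) * 3 ^ (2 * d) - 1 = z * (z + 2) := by
    rw [hNx, hz]
    have : (z + 1) ^ 2 = z * (z + 2) + 1 := by ring
    omega
  rw [hfac] at hω hdv
  have hcop : z.Coprime (z + 2) := by
    have h1 : Nat.Coprime z 2 := by
      rw [Nat.coprime_two_right]
      exact Nat.odd_iff.mpr (by omega)
    simpa using h1
  rcases (Nat.Prime.dvd_mul (prime_of hp)).mp hdv with h1 | h1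
  · obtain ⟨k, hk, hk2⟩ := pow_of_coprime_mul (by omega) (by omega) hcop hω (prime_of hp) h1
    refine M1 hp hc hd ?_ (j := k) (x := c) (y := d) (by omega)
    by_contra hcon
    have h3 : c = 1 := by omega
    have h4 : d = 1 := by omega
    subst h3 h4
    norm_num at hN
  · rw [mul_comm] at hω
    obtain ⟨k, hk, hk2⟩ := pow_of_coprime_mul (by omega) (by omega) hcop.symm hω (prime_of hp) h1
    have h5 : p ^ k = 2 ^ c * 3 ^ d + 1 := by omega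
    rcases Nat.lt_or_ge d 2 with hd2 | hd2
    · have : d = 1 := by omega
      subst this
      refine L2 hp ?_ h5
      by_contra hcon
      have : c ≤ 4 := by omega
      interval_cases c <;> norm_num at hN
    · exact L1 (by tauto) hd2 h5

/-- residues modulo 5 of `2^a 3^b` for exponents of different parity -/
lemma res5 {a b : ℕ} (h : (a + b) % 2 = 1) :
    (2 ^ a * 3 ^ b) % 5 = 2 ∨ (2 ^ a * 3 ^ b) % 5 = 3 := by
  rw [per2 (k := 4) (l := 4) (by norm_num) (by norm_num)]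
  have key : ∀ r < 4, ∀ s < 4, (r + s) % 2 = 1 → (2 ^ r * 3 ^ s) % 5 = 2 ∨
    (2 ^ r * 3 ^ s) % 5 = 3 := by decide
  exact key (a % 4) (Nat.mod_lt _ (by norm_num)) (b % 4) (Nat.mod_lt _ (by norm_num)) (by omega)

/-- `k = 0` -/
lemma k0 {a b : ℕ} (ha : 1 ≤ a) (hb : 1 ≤ b) (hN : 2304 < 2 ^ a * 3 ^ b)
    (h1 : ω (2 ^ a * 3 ^ b + 1) ≤ 2)
    (h2 : ω (2 ^ a * 3 ^ b + 2) ≤ 2) (h3 : ω (2 ^ a * 3 ^ b + 3) ≤ 2)
    (h4 : ω (2 ^ a * 3 ^ b + 4) ≤ 2) : a % 2 = 0 ∧ b % 2 = 0 := by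
  by_contra hcon
  obtain ⟨t5, T⟩ := residues ha hb hN h2 h3 h4
  have d5 : 5 ∣ 2 ^ a * 3 ^ b + 1 := by clear h1 h2 h3 h4; omega
  rcases T with ⟨r4, s4⟩ | ⟨r4, s6⟩ | ⟨r2, s2, t7⟩ | ⟨r2, s2, t13⟩ | ⟨r1, t7, q1, q3⟩
  · clear h1 h2 h3 h4; omega
  · clear h1 h2 h3 h4; omega
  · clear h1 h2 h3 h4; omega
  · clear h1 h2 h3 h4; omega
  · clear h2
    have d7 : 7 ∣ 2 ^ a * 3 ^ b + 1 := by clear h1 h3 h4; omega
    rcases Nat.lt_or_ge a 5 with ha5 | ha5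
    · have : a = 1 ∨ a = 3 := by clear h1 h3 h4; omega
      rcases this with rfl | rfl
      · have hb7 : b % 12 = 7 := by clear h1 h3 h4; omega
        rw [pow_one] at h1 h3 h4 d5 d7
        exact caseA1 hb7 h1 h3 h4 d5 d7
      · clear h3 h4
        obtain ⟨c, rfl⟩ : ∃ c, b = 3 * c := ⟨b / 3, by clear h1; omega⟩
        exact caseA3 (by clear h1; omega) h1 d5
    · exact caseA5 ha5 hb hN h1 d5 d7

lemma tabK2 : ∀ r < 12, ∀ s < 12, r % 2 = 1 ∨ s % 2 = 1 ∨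
    (2 ^ r * 3 ^ s) % 5 = 1 ∨ (2 ^ r * 3 ^ s) % 7 = 1 ∨ (2 ^ r * 3 ^ s) % 7 = 4 ∨
    (2 ^ r * 3 ^ s) % 7 = 2 := by
  decide +kernel

/-- `k = 2` -/
lemma k2 {a b : ℕ} (ha : 1 ≤ a) (hb : 1 ≤ b) (hN : 2304 < 2 ^ a * 3 ^ b)
    (g2 : ω (2 ^ a * 3 ^ b - 2) ≤ 2) (g1 : ω (2 ^ a * 3 ^ b - 1) ≤ 2)
    (h2 : ω (2 ^ a * 3 ^ b + 2) ≤ 2) (h3 : ω (2 ^ a * 3 ^ b + 3) ≤ 2) :
    a % 2 = 1 ∧ b % 2 = 1 := by
  by_contra hcon
  rcases Nat.mod_two_eq_zero_or_one (a + b) with hab | hab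
  · have ea : a % 2 = 0 := by omega
    have eb : b % 2 = 0 := by omega
    have e5 : (2 ^ a * 3 ^ b) % 5 = (2 ^ (a % 12) * 3 ^ (b % 12)) % 5 :=
      per2 (by norm_num) (by norm_num) a b
    have e7 : (2 ^ a * 3 ^ b) % 7 = (2 ^ (a % 12) * 3 ^ (b % 12)) % 7 :=
      per2 (by norm_num) (by norm_num) a b
    have T := tabK2 (a % 12) (Nat.mod_lt _ (by norm_num)) (b % 12) (Nat.mod_lt _ (by norm_num))
    rw [← e5, ← e7] at T
    rcases T with T | T | T | T | T | T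
    · omega
    · omega
    · obtain ⟨c, rfl⟩ : ∃ c, a = 2 * c := ⟨a / 2, by omega⟩
      obtain ⟨d, rfl⟩ : ∃ d, b = 2 * d := ⟨b / 2, by omega⟩
      exact killm1 (p := 5) (by tauto) (by omega) (by omega) hN g1 (by omega)
    · obtain ⟨c, rfl⟩ : ∃ c, a = 2 * c := ⟨a / 2, by omega⟩
      obtain ⟨d, rfl⟩ : ∃ d, b = 2 * d := ⟨b / 2, by omega⟩
      exact killm1 (p := 7) (by tauto) (by omega) (by omega) hN g1 (by omega)
    · exact kill3 (p := 7) (by tauto) ha hb hN h3 (by omega)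
    · exact killm2 (p := 7) (by tauto) (by omega) hb hN g2 (by omega)
  · rcases res5 hab with h | h
    · exact kill3 (p := 5) (by tauto) ha hb hN h3 (by omega)
    · exact kill2 (p := 5) (by tauto) ha hb hN h2 (by omega)

/-- `k = 3` -/
lemma k3 {a b : ℕ} (ha : 1 ≤ a) (hb : 1 ≤ b) (hN : 2304 < 2 ^ a * 3 ^ b)
    (g2 : ω (2 ^ a * 3 ^ b - 2) ≤ 2) (h2 : ω (2 ^ a * 3 ^ b + 2) ≤ 2) :
    (a + b) % 2 = 0 := by
  by_contra hcon
  rcases res5 (a := a) (b := b) (by omega) with h | h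
  · exact killm2' ha hb hN g2 (by omega)
  · exact kill2 (p := 5) (by tauto) ha hb hN h2 (by omega)

/-- `k = 4, 5` -/
lemma k45 {a b : ℕ} (ha : 1 ≤ a) (hb : 1 ≤ b) (hN : 2304 < 2 ^ a * 3 ^ b)
    (g4 : ω (2 ^ a * 3 ^ b - 4) ≤ 2) (g3 : ω (2 ^ a * 3 ^ b - 3) ≤ 2)
    (g2 : ω (2 ^ a * 3 ^ b - 2) ≤ 2) :
    a % 2 = 1 ∧ b % 2 = 1 := by
  by_contra hcon
  rcases Nat.mod_two_eq_zero_or_one (a + b) with hab | hab
  · obtain ⟨c, rfl⟩ : ∃ c, a = 2 * c := ⟨a / 2, by omega⟩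
    obtain ⟨d, rfl⟩ : ∃ d, b = 2 * d := ⟨b / 2, by omega⟩
    exact killm4 (by omega) (by omega) hN g4
  · rcases res5 hab with h | h
    · exact killm2' ha hb hN g2 (by omega)
    · exact killm3 ha hb hN g3 (by omega)

end Pool.Agent.Helper13.Six
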