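import Mathlib
import Pool.Agent.Helper13.Six.Parity

/-!
# Six consecutive integers: the covering modulo 720

Soundness of the rules which remove residue classes of the exponents modulo 720.
-/

open scoped ArithmeticFunction.omega

namespace Pool.Agent.Helper13.Six

open Pool.Agent.Helper90.FiveModSix

/-- the primes used -/
def QL : List ℕ := [5, 7, 13, 17, 11, 19, 31, 37, 41, 61, 73, 97, 181, 241, 577]

lemma QL_prime : ∀ q ∈ QL, q.Prime := by
  intro p hp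
  simp only [QL, List.mem_cons, List.not_mem_nil, or_false] at hp
  rcases hp with rfl | rfl | rfl | rfl | rfl | rfl | rfl | rfl | rfl | rfl | rfl | rfl | rfl |
    rfl | rfl <;> norm_num

lemma QL_plus : ∀ q ∈ QL, ∀ r < 64, q ^ r % 256 = 1 → r % 4 = 0 := by
  decide +kernel

lemma QL_minus : ∀ q ∈ QL, ∀ r < 64, q ^ r % 256 ≠ 255 := by
  decide +kernel

lemma QL_64 : ∀ q ∈ QL, q ^ 64 % 256 = 1 := by
  decide +kernel

lemma QL_5 : ∀ q ∈ QL, q = 5 ∨ q ^ 4 % 5 = 1 := by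
  decide +kernel

lemma QL_24 : ∀ q ∈ QL, q ^ 2 % 24 = 1 := by
  decide +kernel

lemma QL_period : ∀ q ∈ QL, 2 ^ 720 % q = 1 ∧ 3 ^ 720 % q = 1 := by
  decide +kernel

lemma QL_ge : ∀ q ∈ QL, 5 ≤ q := by decide +kernel

lemma QL_nodup : QL.Nodup := by decide +kernel

lemma mod256 {x y : ℕ} (hx : 8 ≤ x) : (2 ^ x * 3 ^ y) % 256 = 0 := by
  obtain ⟨z, rfl⟩ := Nat.exists_eq_add_of_le hx
  rw [pow_add]
  have : 2 ^ 8 * 2 ^ z * 3 ^ y = 256 * (2 ^ z * 3 ^ y) := by ring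
  omega

/-- `q^c = 2^x 3^y + 1` is impossible -/
lemma Lp {q c x y : ℕ} (hq : q ∈ QL) (hx : 8 ≤ x) (h : q ^ c = 2 ^ x * 3 ^ y + 1) : False := by
  have h1 : q ^ c % 256 = 1 := by
    have := mod256 (x := x) (y := y) hx
    omega
  have h64 := QL_64 q hq
  have h2 : q ^ c % 256 = q ^ (c % 64) % 256 := per (k := 64) (by rw [h64]) c
  have h3 : c % 64 % 4 = 0 := QL_plus q hq (c % 64) (Nat.mod_lt _ (by norm_num)) (by rw [← h2, h1])
  have h4 : c % 4 = 0 := by omega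
  rcases QL_5 q hq with h5 | h5
  · subst h5
    have e : 5 ^ c % 13 = 5 ^ (c % 4) % 13 := per (k := 4) (by norm_num) c
    rw [h4] at e
    have h6 : (2 ^ x * 3 ^ y) % 13 = 0 := by omega
    exact not_dvd_23 (by norm_num) (by norm_num) _ _ (Nat.dvd_of_mod_eq_zero h6)
  · have e : q ^ c % 5 = q ^ (c % 4) % 5 := per (k := 4) (by rw [h5]) c
    rw [h4, pow_zero] at e
    have h6 : (2 ^ x * 3 ^ y) % 5 = 0 := by omega
    exact not_dvd_23 (by norm_num) (by norm_num) _ _ (Nat.dvd_of_mod_eq_zero h6)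

/-- `q^c + 1 = 2^x 3^y` is impossible -/
lemma Lm {q c x y : ℕ} (hq : q ∈ QL) (hx : 8 ≤ x) (h : q ^ c + 1 = 2 ^ x * 3 ^ y) : False := by
  have h1 : q ^ c % 256 = 255 := by
    have := mod256 (x := x) (y := y) hx
    omega
  have h64 := QL_64 q hq
  have h2 : q ^ c % 256 = q ^ (c % 64) % 256 := per (k := 64) (by rw [h64]) c
  exact QL_minus q hq (c % 64) (Nat.mod_lt _ (by norm_num)) (by rw [← h2, h1])

/-- `2^x 3^y` is divisible by 6 -/
lemma six_dvd {x y : ℕ} (hx : 1 ≤ x) (hy : 1 ≤ y) : (2 ^ x * 3 ^ y) % 6 = 0 := by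
  obtain ⟨x, rfl⟩ : ∃ x', x = x' + 1 := ⟨x - 1, by omega⟩
  obtain ⟨y, rfl⟩ : ∃ y', y = y' + 1 := ⟨y - 1, by omega⟩
  have : 2 ^ (x + 1) * 3 ^ (y + 1) = 6 * (2 ^ x * 3 ^ y) := by ring
  omega

lemma ge6 {x y : ℕ} (hx : 1 ≤ x) (hy : 1 ≤ y) : 6 ≤ 2 ^ x * 3 ^ y := by
  calc 6 = 2 ^ 1 * 3 ^ 1 := by norm_num
    _ ≤ 2 ^ x * 3 ^ y := Nat.mul_le_mul (Nat.pow_le_pow_right (by norm_num) hx)
        (Nat.pow_le_pow_right (by norm_num) hy)

/-- numbers coprime to 6 are coprime to `d = 2, 3, 4` -/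
lemma cop_d {d u : ℕ} (hd : d = 2 ∨ d = 3 ∨ d = 4) (hu : u % 6 = 1 ∨ u % 6 = 5) :
    u.Coprime d := by
  rcases hd with rfl | rfl | rfl
  · rw [Nat.coprime_two_right]; exact Nat.odd_iff.mpr (by omega)
  · rw [Nat.coprime_comm, (Nat.Prime.coprime_iff_not_dvd Nat.prime_three)]
    omega
  · have h2 : u.Coprime 2 := by rw [Nat.coprime_two_right]; exact Nat.odd_iff.mpr (by omega)
    have : (4 : ℕ) = 2 ^ 2 := by norm_num
    rw [this]
    exact Nat.Coprime.pow_right 2 h2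

/-- pure position, plus sign -/
lemma pureP {q d x y m : ℕ} (hq : q ∈ QL) (hd : d = 2 ∨ d = 3 ∨ d = 4) (hx : 8 ≤ x) (hy : 1 ≤ y)
    (hm : m = d * (2 ^ x * 3 ^ y + 1)) (hω : ω m ≤ 2) (hdv : q ∣ m) : False := by
  have h6 := six_dvd (x := x) (y := y) (by omega) hy
  have hge := ge6 (x := x) (y := y) (by omega) hy
  have hqp := QL_prime q hq
  have hq5 := QL_ge q hq
  subst hm
  have hdu : q ∣ 2 ^ x * 3 ^ y + 1 := by
    rcases (Nat.Prime.dvd_mul hqp).mp hdv with h | h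
    · exact absurd (Nat.le_of_dvd (by omega) h) (by omega)
    · exact h
  rw [mul_comm] at hω
  obtain ⟨k, -, hk⟩ := pow_of_coprime_mul (by omega) (by omega) (cop_d hd (by omega)) hω hqp hdu
  exact Lp hq hx hk.symm

/-- pure position, minus sign -/
lemma pureM {q d x y m : ℕ} (hq : q ∈ QL) (hd : d = 2 ∨ d = 3 ∨ d = 4) (hx : 8 ≤ x) (hy : 1 ≤ y)
    (hm : m = d * (2 ^ x * 3 ^ y - 1)) (hω : ω m ≤ 2) (hdv : q ∣ m) : False := by
  have h6 := six_dvd (x := x) (y := y) (by omega) hy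
  have hge := ge6 (x := x) (y := y) (by omega) hy
  have hqp := QL_prime q hq
  have hq5 := QL_ge q hq
  subst hm
  have hdu : q ∣ 2 ^ x * 3 ^ y - 1 := by
    rcases (Nat.Prime.dvd_mul hqp).mp hdv with h | h
    · exact absurd (Nat.le_of_dvd (by omega) h) (by omega)
    · exact h
  rw [mul_comm] at hω
  obtain ⟨k, -, hk⟩ := pow_of_coprime_mul (by omega) (by omega) (cop_d hd (by omega)) hω hqp hdu
  exact Lm hq hx (c := k) (x := x) (y := y) (by omega)

lemma cubeM_coprime {z : ℕ} (hz : z % 3 = 0) (hz1 : 2 ≤ z) :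
    (z - 1).Coprime (z * (z + 1) + 1) := by
  obtain ⟨w, rfl⟩ : ∃ w, z = w + 1 := ⟨z - 1, by omega⟩
  rw [Nat.add_sub_cancel]
  have e : (w + 1) * (w + 1 + 1) + 1 = 3 + w * (w + 3) := by ring
  rw [e, Nat.coprime_add_mul_left_right, Nat.coprime_comm,
    (Nat.Prime.coprime_iff_not_dvd Nat.prime_three)]
  omega

/-- cube, plus sign -/
lemma cubeP {d z m : ℕ} (hd : d = 2 ∨ d = 3 ∨ d = 4) (hz6 : z % 6 = 0) (hz : 6 ≤ z)
    (hm : m = d * (z ^ 3 + 1)) (hω : ω m ≤ 2) : False := by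
  obtain ⟨v, hv⟩ : ∃ v, z = 6 * v := ⟨z / 6, by omega⟩
  have h0 : 0 < z * (z - 1) := Nat.mul_pos (by omega) (by omega)
  have h1 : (z * (z - 1)) % 6 = 0 := by
    rw [Nat.mul_mod, hz6]; simp
  have e : m = d * (z + 1) * (z * (z - 1) + 1) := by
    rw [hm]
    obtain ⟨w, rfl⟩ : ∃ w, z = w + 1 := ⟨z - 1, by omega⟩
    rw [Nat.add_sub_cancel]; ring
  have := three_factors (u := d) (v := z + 1) (w := z * (z - 1) + 1) (by omega) (by omega)
    (by omega) (cop_d hd (by omega)).symm (cop_d hd (by omega)).symm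
    (cube_coprime (by omega) (by omega))
  rw [← e] at this
  omega

/-- cube, minus sign -/
lemma cubeM {d z m : ℕ} (hd : d = 2 ∨ d = 3 ∨ d = 4) (hz6 : z % 6 = 0) (hz : 6 ≤ z)
    (hm : m = d * (z ^ 3 - 1)) (hω : ω m ≤ 2) : False := by
  have h0 : 0 < z * (z + 1) := Nat.mul_pos (by omega) (by omega)
  have h1 : (z * (z + 1)) % 6 = 0 := by
    rw [Nat.mul_mod, hz6]; simp
  have e : m = d * (z - 1) * (z * (z + 1) + 1) := by
    rw [hm]
    obtain ⟨w, rfl⟩ : ∃ w, z = w + 1 := ⟨z - 1, by omega⟩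
    have : (w + 1) ^ 3 = (w + 1 - 1) * ((w + 1) * (w + 1 + 1) + 1) + 1 := by
      rw [Nat.add_sub_cancel]; ring
    rw [this, Nat.add_sub_cancel, mul_assoc]
  have := three_factors (u := d) (v := z - 1) (w := z * (z + 1) + 1) (by omega) (by omega)
    (by omega) (cop_d hd (by omega)).symm (cop_d hd (by omega)).symm
    (cubeM_coprime (by omega) (by omega))
  rw [← e] at this
  omega

lemma sq_coprime {z : ℕ} (hz : z % 2 = 0) (hz1 : 2 ≤ z) : (z - 1).Coprime (z + 1) := by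
  obtain ⟨w, rfl⟩ : ∃ w, z = w + 1 := ⟨z - 1, by omega⟩
  rw [Nat.add_sub_cancel]
  have h1 : Nat.Coprime w 2 := by
    rw [Nat.coprime_two_right]
    exact Nat.odd_iff.mpr (by omega)
  simpa [add_assoc] using h1

/-- square, minus sign -/
lemma sqM {d z m : ℕ} (hd : d = 2 ∨ d = 3 ∨ d = 4) (hz6 : z % 6 = 0) (hz : 6 ≤ z)
    (hm : m = d * (z ^ 2 - 1)) (hω : ω m ≤ 2) : False := by
  have e : m = d * (z - 1) * (z + 1) := by
    rw [hm]
    obtain ⟨w, rfl⟩ : ∃ w, z = w + 1 := ⟨z - 1, by omega⟩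
    have : (w + 1) ^ 2 = (w + 1 - 1) * (w + 1 + 1) + 1 := by
      rw [Nat.add_sub_cancel]; ring
    rw [this, Nat.add_sub_cancel, mul_assoc]
  have := three_factors (u := d) (v := z - 1) (w := z + 1) (by omega) (by omega)
    (by omega) (cop_d hd (by omega)).symm (cop_d hd (by omega)).symm
    (sq_coprime (by omega) (by omega))
  rw [← e] at this
  omega

/-- rule A: `N = z^2`, `q | N - 1` -/
lemma ruleA {q x y m : ℕ} (hq : q ∈ QL) (hx : 8 ≤ x) (hy : 1 ≤ y)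
    (hm : m = (2 ^ x * 3 ^ y) ^ 2 - 1) (hω : ω m ≤ 2) (hdv : q ∣ m) : False := by
  have h6 := six_dvd (x := x) (y := y) (by omega) hy
  have hge := ge6 (x := x) (y := y) (by omega) hy
  have e : m = (2 ^ x * 3 ^ y - 1) * (2 ^ x * 3 ^ y + 1) := by
    rw [hm]
    generalize 2 ^ x * 3 ^ y = z at *
    obtain ⟨w, rfl⟩ : ∃ w, z = w + 1 := ⟨z - 1, by omega⟩
    have : (w + 1) ^ 2 = (w + 1 - 1) * (w + 1 + 1) + 1 := by
      rw [Nat.add_sub_cancel]; ring
    rw [this, Nat.add_sub_cancel]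
  have hc := sq_coprime (z := 2 ^ x * 3 ^ y) (by omega) (by omega)
  rw [e] at hω hdv
  rcases (Nat.Prime.dvd_mul (QL_prime q hq)).mp hdv with h | h
  · obtain ⟨k, -, hk⟩ := pow_of_coprime_mul (by omega) (by omega) hc hω (QL_prime q hq) h
    exact Lm hq hx (c := k) (x := x) (y := y) (by omega)
  · rw [mul_comm] at hω
    obtain ⟨k, -, hk⟩ := pow_of_coprime_mul (by omega) (by omega) hc.symm hω (QL_prime q hq) h
    exact Lp hq hx hk.symm

/-- rule B, plus sign: `N = z^3`, `q | z + 1` -/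
lemma ruleBP {q x y m : ℕ} (hq : q ∈ QL) (hx : 8 ≤ x) (hy : 1 ≤ y)
    (hm : m = (2 ^ x * 3 ^ y) ^ 3 + 1) (hω : ω m ≤ 2) (hdv : q ∣ 2 ^ x * 3 ^ y + 1) : False := by
  have h6 := six_dvd (x := x) (y := y) (by omega) hy
  have hge := ge6 (x := x) (y := y) (by omega) hy
  have e : m = (2 ^ x * 3 ^ y + 1) * (2 ^ x * 3 ^ y * (2 ^ x * 3 ^ y - 1) + 1) := by
    rw [hm]
    generalize 2 ^ x * 3 ^ y = z at *
    obtain ⟨w, rfl⟩ : ∃ w, z = w + 1 := ⟨z - 1, by omega⟩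
    rw [Nat.add_sub_cancel]; ring
  have hc := cube_coprime (z := 2 ^ x * 3 ^ y) (by omega) (by omega)
  have h0 : 0 < 2 ^ x * 3 ^ y * (2 ^ x * 3 ^ y - 1) := Nat.mul_pos (by omega) (by omega)
  rw [e] at hω
  obtain ⟨k, -, hk⟩ := pow_of_coprime_mul (by omega) (by omega) hc hω (QL_prime q hq) hdv
  exact Lp hq hx hk.symm

/-- rule B, minus sign: `N = z^3`, `q | z - 1` -/
lemma ruleBM {q x y m : ℕ} (hq : q ∈ QL) (hx : 8 ≤ x) (hy : 1 ≤ y)
    (hm : m = (2 ^ x * 3 ^ y) ^ 3 - 1) (hω : ω m ≤ 2) (hdv : q ∣ 2 ^ x * 3 ^ y - 1) : False := by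
  have h6 := six_dvd (x := x) (y := y) (by omega) hy
  have hge := ge6 (x := x) (y := y) (by omega) hy
  have e : m = (2 ^ x * 3 ^ y - 1) * (2 ^ x * 3 ^ y * (2 ^ x * 3 ^ y + 1) + 1) := by
    rw [hm]
    generalize 2 ^ x * 3 ^ y = z at *
    obtain ⟨w, rfl⟩ : ∃ w, z = w + 1 := ⟨z - 1, by omega⟩
    have : (w + 1) ^ 3 = (w + 1 - 1) * ((w + 1) * (w + 1 + 1) + 1) + 1 := by
      rw [Nat.add_sub_cancel]; ring
    rw [this, Nat.add_sub_cancel]
  have hc := cubeM_coprime (z := 2 ^ x * 3 ^ y) (by omega) (by omega)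
  have h0 : 0 < 2 ^ x * 3 ^ y * (2 ^ x * 3 ^ y + 1) := Nat.mul_pos (by omega) (by omega)
  rw [e] at hω
  obtain ⟨k, -, hk⟩ := pow_of_coprime_mul (by omega) (by omega) hc hω (QL_prime q hq) hdv
  exact Lm hq hx (c := k) (x := x) (y := y) (by omega)

/-- the pair rule: `p q | m`, `m = J mod 24` and `J` is not a product of powers of `p, q`
modulo 24, or `J = 1` and `p, q` are independent modulo 24 -/
def badpair (J p q : ℕ) : Bool :=
  (J != 1 && J != p % 24 && J != q % 24 && J != (p * q) % 24) ||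
    (J == 1 && p % 24 != 1 && q % 24 != 1 && (p * q) % 24 != 1)

lemma pair_rule {J p q m : ℕ} (hp : p ∈ QL) (hq : q ∈ QL) (hpq : p ≠ q) (hm : m ≠ 0)
    (hJ : m % 24 = J) (hb : badpair J p q = true) (h1 : p ∣ m) (h2 : q ∣ m) (hω : ω m ≤ 2) :
    J = 1 ∧ ∃ y, m = y ^ 2 := by
  obtain ⟨i, j, -, -, h⟩ := two_primes hm (QL_prime p hp) (QL_prime q hq) hpq h1 h2 hω
  have e1 : p ^ i % 24 = p ^ (i % 2) % 24 := per (k := 2) (by rw [QL_24 p hp]) i
  have e2 : q ^ j % 24 = q ^ (j % 2) % 24 := per (k := 2) (by rw [QL_24 q hq]) j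
  have e : m % 24 = (p ^ (i % 2) * q ^ (j % 2)) % 24 := by
    rw [h, Nat.mul_mod, e1, e2, ← Nat.mul_mod]
  rw [hJ] at e
  unfold badpair at hb
  rcases Nat.mod_two_eq_zero_or_one i with hi | hi <;>
    rcases Nat.mod_two_eq_zero_or_one j with hj | hj <;>
    rw [hi, hj] at e <;>
    simp only [pow_zero, pow_one, one_mul, mul_one] at e
  · have e' : J = 1 := by omega
    refine ⟨e', p ^ (i / 2) * q ^ (j / 2), ?_⟩
    rw [h, mul_pow, ← pow_mul, ← pow_mul]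
    congr 2 <;> omega
  all_goals
    exfalso
    rw [Bool.or_eq_true] at hb
    simp only [Bool.and_eq_true, bne_iff_ne, beq_iff_eq, ne_eq] at hb
    rcases hb with ⟨⟨⟨b1, b2⟩, b3⟩, b4⟩ | ⟨⟨⟨b1, b2⟩, b3⟩, b4⟩ <;> omega

/-- test of a side position: `D` is the list of the known prime divisors -/
def side (J : ℕ) : List ℕ → Bool
  | [] => false
  | [_] => false
  | [p, q] => badpair J p q
  | _ => true

lemma side_rule {J m : ℕ} {D : List ℕ} (hD : ∀ q ∈ D, q ∈ QL ∧ q ∣ m) (hn : D.Nodup)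
    (hm : m ≠ 0) (hJ : m % 24 = J) (hs : side J D = true) (hω : ω m ≤ 2) :
    J = 1 ∧ ∃ y, m = y ^ 2 := by
  match D, hD, hn, hs with
  | [], _, _, hs => simp [side] at hs
  | [_], _, _, hs => simp [side] at hs
  | [p, q], hD, hn, hs =>
    have hp := hD p (by simp)
    have hq := hD q (by simp)
    have hpq : p ≠ q := by
      rintro rfl
      simp at hn
    exact pair_rule hp.1 hq.1 hpq hm hJ hs hp.2 hq.2 hω
  | p :: q :: r :: D, hD, hn, hs =>
    have hp := hD p (by simp)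
    have hq := hD q (by simp)
    have hr := hD r (by simp)
    simp only [List.nodup_cons, List.mem_cons, not_or] at hn
    have := three_primes hm (QL_prime p hp.1) (QL_prime q hq.1) (QL_prime r hr.1)
      hn.1.1 hn.1.2.1 hn.2.1.1 hp.2 hq.2 hr.2
    omega

end Pool.Agent.Helper13.Six
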