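import Mathlib
import Pool.Agent.Helper13.Six.Rules

/-!
# Six consecutive integers: the covering function and its soundness
-/

open scoped ArithmeticFunction.omega

namespace Pool.Agent.Helper13.Six

open Pool.Agent.Helper90.FiveModSix

/-- the prime `q` divides a pure position; `t` is the residue of `N` modulo `q` -/
def pureK (k t q : ℕ) : Bool :=
  (Nat.ble k 3 && t + 2 == q) || (Nat.ble k 2 && t + 3 == q) || (Nat.ble k 1 && t + 4 == q) ||
  (Nat.ble 2 k && t == 2) || (Nat.ble 3 k && t == 3) || (Nat.ble 4 k && t == 4)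

/-- algebraic factorisations of the pure positions -/
def alg (k r s : ℕ) : Bool :=
  (r % 3 == 1 && s % 3 == 0) ||
  ((Nat.ble k 2 || Nat.ble 3 k) && r % 3 == 0 && s % 3 == 1) ||
  ((Nat.ble k 1 || Nat.ble 4 k) && r % 3 == 2 && s % 3 == 0) ||
  (Nat.ble 2 k && r % 2 == 1 && s % 2 == 0) || (Nat.ble 3 k && r % 2 == 0 && s % 2 == 1) ||
  (Nat.ble 4 k && r % 2 == 0 && s % 2 == 0)

/-- the class `(r, s)` of exponents is removed -/
def dead (L B : List ℕ) (k r s : ℕ) : Bool :=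
  alg k r s ||
  L.any (fun q => pureK k ((2 ^ r * 3 ^ s) % q) q) ||
  (Nat.ble k 4 && side 1 (L.filter fun q => (2 ^ r * 3 ^ s) % q + 1 == q)) ||
  (Nat.ble 1 k && side 23 (L.filter fun q => (2 ^ r * 3 ^ s) % q == 1)) ||
  (k == 0 && side 5 (L.filter fun q => (2 ^ r * 3 ^ s) % q + 5 == q)) ||
  (k == 5 && side 19 (L.filter fun q => (2 ^ r * 3 ^ s) % q == 5)) ||
  (Nat.ble 1 k && r % 2 == 0 && s % 2 == 0 && L.any fun q => (2 ^ r * 3 ^ s) % q == 1) ||
  (Nat.ble k 4 && r % 3 == 0 && s % 3 == 0 &&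
    B.any fun q => (2 ^ (r / 3) * 3 ^ (s / 3)) % q + 1 == q) ||
  (Nat.ble 1 k && r % 3 == 0 && s % 3 == 0 &&
    B.any fun q => (2 ^ (r / 3) * 3 ^ (s / 3)) % q == 1)

lemma dvd_add_of_mod {N q j : ℕ} (h : N % q + j = q) : q ∣ N + j :=
  ⟨N / q + 1, by
    have := Nat.div_add_mod N q
    calc N + j = q * (N / q) + (N % q + j) := by omega
      _ = q * (N / q) + q := by rw [h]
      _ = q * (N / q + 1) := by ring⟩

lemma dvd_sub_of_mod {N q j : ℕ} (h : N % q = j) : q ∣ N - j := by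
  subst h
  exact Nat.dvd_sub_mod N

section

variable {a b k : ℕ}

lemma fac2 (ha : 24 ≤ a) : 2 ^ a * 3 ^ b = 2 * (2 ^ (a - 1) * 3 ^ b) := by
  obtain ⟨a, rfl⟩ : ∃ a', a = a' + 1 := ⟨a - 1, by omega⟩
  rw [Nat.add_sub_cancel]; ring

lemma fac3 (hb : 24 ≤ b) : 2 ^ a * 3 ^ b = 3 * (2 ^ a * 3 ^ (b - 1)) := by
  obtain ⟨b, rfl⟩ : ∃ b', b = b' + 1 := ⟨b - 1, by omega⟩
  rw [Nat.add_sub_cancel]; ring

lemma fac4 (ha : 24 ≤ a) : 2 ^ a * 3 ^ b = 4 * (2 ^ (a - 2) * 3 ^ b) := by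
  obtain ⟨a, rfl⟩ : ∃ a', a = a' + 2 := ⟨a - 2, by omega⟩
  rw [Nat.add_sub_cancel]; ring

lemma fac24 (ha : 24 ≤ a) (hb : 24 ≤ b) : (2 ^ a * 3 ^ b) % 24 = 0 := by
  obtain ⟨a, rfl⟩ : ∃ a', a = a' + 3 := ⟨a - 3, by omega⟩
  obtain ⟨b, rfl⟩ : ∃ b', b = b' + 1 := ⟨b - 1, by omega⟩
  have : 2 ^ (a + 3) * 3 ^ (b + 1) = 24 * (2 ^ a * 3 ^ b) := by ring
  omega

lemma big (ha : 24 ≤ a) (hb : 24 ≤ b) : 2304 < 2 ^ a * 3 ^ b := by
  calc 2304 < 2 ^ 24 * 3 ^ 1 := by norm_num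
    _ ≤ 2 ^ a * 3 ^ b := Nat.mul_le_mul (Nat.pow_le_pow_right (by norm_num) ha)
        (Nat.pow_le_pow_right (by norm_num) (by omega))

variable (ha : 24 ≤ a) (hb : 24 ≤ b) (hk : k ≤ 5)
  (H : ∀ i < 6, ω (2 ^ a * 3 ^ b + i - k) ≤ 2)

omit ha hb in
include H in
lemma posP (j : ℕ) (hj : j + k ≤ 5) : ω (2 ^ a * 3 ^ b + j) ≤ 2 := by
  have h := H (k + j) (by omega)
  rwa [show 2 ^ a * 3 ^ b + (k + j) - k = 2 ^ a * 3 ^ b + j by omega] at h

include ha hb H in
lemma posM (hk : k ≤ 5) (j : ℕ) (hj : j ≤ k) : ω (2 ^ a * 3 ^ b - j) ≤ 2 := by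
  have h := H (k - j) (by omega)
  have hN := big ha hb
  rwa [show 2 ^ a * 3 ^ b + (k - j) - k = 2 ^ a * 3 ^ b - j by omega] at h

include ha hb hk H in
lemma sound_pure {q : ℕ} (hq : q ∈ QL) (h : pureK k ((2 ^ a * 3 ^ b) % q) q = true) : False := by
  unfold pureK at h
  simp only [Bool.or_eq_true, Bool.and_eq_true, Nat.ble_eq, beq_iff_eq] at h
  have hN := big ha hb
  rcases h with ((((⟨h1, h2⟩ | ⟨h1, h2⟩) | ⟨h1, h2⟩) | ⟨h1, h2⟩) | ⟨h1, h2⟩) | ⟨h1, h2⟩
  · exact pureP (d := 2) (x := a - 1) (y := b) hq (by tauto) (by omega) (by omega)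
      (by have := fac2 (b := b) ha; omega) (posP H 2 (by omega)) (dvd_add_of_mod h2)
  · exact pureP (d := 3) (x := a) (y := b - 1) hq (by tauto) (by omega) (by omega)
      (by have := fac3 (a := a) hb; omega) (posP H 3 (by omega)) (dvd_add_of_mod h2)
  · exact pureP (d := 4) (x := a - 2) (y := b) hq (by tauto) (by omega) (by omega)
      (by have := fac4 (b := b) ha; omega) (posP H 4 (by omega)) (dvd_add_of_mod h2)
  · exact pureM (d := 2) (x := a - 1) (y := b) hq (by tauto) (by omega) (by omega)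
      (by have := fac2 (b := b) ha; omega) (posM ha hb H hk 2 (by omega)) (dvd_sub_of_mod h2)
  · exact pureM (d := 3) (x := a) (y := b - 1) hq (by tauto) (by omega) (by omega)
      (by have := fac3 (a := a) hb; omega) (posM ha hb H hk 3 (by omega)) (dvd_sub_of_mod h2)
  · exact pureM (d := 4) (x := a - 2) (y := b) hq (by tauto) (by omega) (by omega)
      (by have := fac4 (b := b) ha; omega) (posM ha hb H hk 4 (by omega)) (dvd_sub_of_mod h2)

lemma cubeForm {x y : ℕ} (hx : x % 3 = 0) (hy : y % 3 = 0) :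
    2 ^ x * 3 ^ y = (2 ^ (x / 3) * 3 ^ (y / 3)) ^ 3 := by
  rw [mul_pow, ← pow_mul, ← pow_mul]
  congr 2 <;> omega

lemma sqForm {x y : ℕ} (hx : x % 2 = 0) (hy : y % 2 = 0) :
    2 ^ x * 3 ^ y = (2 ^ (x / 2) * 3 ^ (y / 2)) ^ 2 := by
  rw [mul_pow, ← pow_mul, ← pow_mul]
  congr 2 <;> omega

include ha hb hk H in
lemma sound_alg (h : alg k a b = true) : False := by
  unfold alg at h
  simp only [Bool.or_eq_true, Bool.and_eq_true, Nat.ble_eq, beq_iff_eq] at h
  have hN := big ha hb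
  have f2 := fac2 (b := b) ha
  have f3 := fac3 (a := a) hb
  have f4 := fac4 (b := b) ha
  rcases h with ((((⟨h1, h2⟩ | ⟨⟨h0, h1⟩, h2⟩) | ⟨⟨h0, h1⟩, h2⟩) | ⟨⟨h0, h1⟩, h2⟩) |
    ⟨⟨h0, h1⟩, h2⟩) | ⟨⟨h0, h1⟩, h2⟩
  · have e := cubeForm (x := a - 1) (y := b) (by omega) (by omega)
    have h6 := six_dvd (x := (a - 1) / 3) (y := b / 3) (by omega) (by omega)
    have g6 := ge6 (x := (a - 1) / 3) (y := b / 3) (by omega) (by omega)
    rcases Nat.lt_or_ge k 2 with hk2 | hk2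
    · exact cubeP (d := 2) (by tauto) h6 g6 (by rw [← e]; omega) (posP H 2 (by omega))
    · exact cubeM (d := 2) (by tauto) h6 g6 (by rw [← e]; omega) (posM ha hb H hk 2 (by omega))
  · have e := cubeForm (x := a) (y := b - 1) (by omega) (by omega)
    have h6 := six_dvd (x := a / 3) (y := (b - 1) / 3) (by omega) (by omega)
    have g6 := ge6 (x := a / 3) (y := (b - 1) / 3) (by omega) (by omega)
    rcases h0 with h0 | h0
    · exact cubeP (d := 3) (by tauto) h6 g6 (by rw [← e]; omega) (posP H 3 (by omega))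
    · exact cubeM (d := 3) (by tauto) h6 g6 (by rw [← e]; omega) (posM ha hb H hk 3 (by omega))
  · have e := cubeForm (x := a - 2) (y := b) (by omega) (by omega)
    have h6 := six_dvd (x := (a - 2) / 3) (y := b / 3) (by omega) (by omega)
    have g6 := ge6 (x := (a - 2) / 3) (y := b / 3) (by omega) (by omega)
    rcases h0 with h0 | h0
    · exact cubeP (d := 4) (by tauto) h6 g6 (by rw [← e]; omega) (posP H 4 (by omega))
    · exact cubeM (d := 4) (by tauto) h6 g6 (by rw [← e]; omega) (posM ha hb H hk 4 (by omega))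
  · have e := sqForm (x := a - 1) (y := b) (by omega) (by omega)
    have h6 := six_dvd (x := (a - 1) / 2) (y := b / 2) (by omega) (by omega)
    have g6 := ge6 (x := (a - 1) / 2) (y := b / 2) (by omega) (by omega)
    exact sqM (d := 2) (by tauto) h6 g6 (by rw [← e]; omega) (posM ha hb H hk 2 (by omega))
  · have e := sqForm (x := a) (y := b - 1) (by omega) (by omega)
    have h6 := six_dvd (x := a / 2) (y := (b - 1) / 2) (by omega) (by omega)
    have g6 := ge6 (x := a / 2) (y := (b - 1) / 2) (by omega) (by omega)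
    exact sqM (d := 3) (by tauto) h6 g6 (by rw [← e]; omega) (posM ha hb H hk 3 (by omega))
  · have e := sqForm (x := a - 2) (y := b) (by omega) (by omega)
    have h6 := six_dvd (x := (a - 2) / 2) (y := b / 2) (by omega) (by omega)
    have g6 := ge6 (x := (a - 2) / 2) (y := b / 2) (by omega) (by omega)
    exact sqM (d := 4) (by tauto) h6 g6 (by rw [← e]; omega) (posM ha hb H hk 4 (by omega))

include ha hb hk H in
/-- soundness of the covering function -/
lemma sound {L B : List ℕ} {M : ℕ} (hL : ∀ q ∈ L, q ∈ QL ∧ 2 ^ M % q = 1 ∧ 3 ^ M % q = 1)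
    (hB : ∀ q ∈ B, q ∈ QL ∧ 2 ^ (M / 3) % q = 1 ∧ 3 ^ (M / 3) % q = 1) (hn : L.Nodup)
    (h6 : M % 6 = 0) (hM : 0 < M) : dead L B k (a % M) (b % M) = false := by
  by_contra hcon
  rw [Bool.not_eq_false] at hcon
  have hN := big ha hb
  have h24 := fac24 ha hb
  have hres : ∀ q ∈ L, (2 ^ (a % M) * 3 ^ (b % M)) % q = (2 ^ a * 3 ^ b) % q := by
    intro q hq
    obtain ⟨h1, h2, h3⟩ := hL q hq
    have hq5 := QL_ge q h1
    exact (per2 (k := M) (l := M) (by rw [h2, Nat.mod_eq_of_lt (by omega)])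
      (by rw [h3, Nat.mod_eq_of_lt (by omega)]) a b).symm
  have hresB : ∀ q ∈ B, a % M % 3 = 0 → b % M % 3 = 0 →
      (2 ^ (a % M / 3) * 3 ^ (b % M / 3)) % q = (2 ^ (a / 3) * 3 ^ (b / 3)) % q := by
    intro q hq h3a h3b
    obtain ⟨h1, h2, h3⟩ := hB q hq
    have hq5 := QL_ge q h1
    have ea : a % M / 3 = a / 3 % (M / 3) := by
      obtain ⟨c, rfl⟩ : ∃ c, M = 3 * c := ⟨M / 3, by omega⟩
      rw [Nat.mul_div_cancel_left c (by norm_num), Nat.mod_mul_right_div_self]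
    have eb : b % M / 3 = b / 3 % (M / 3) := by
      obtain ⟨c, rfl⟩ : ∃ c, M = 3 * c := ⟨M / 3, by omega⟩
      rw [Nat.mul_div_cancel_left c (by norm_num), Nat.mod_mul_right_div_self]
    rw [ea, eb]
    exact (per2 (k := M / 3) (l := M / 3) (by rw [h2, Nat.mod_eq_of_lt (by omega)])
      (by rw [h3, Nat.mod_eq_of_lt (by omega)]) (a / 3) (b / 3)).symm
  have m2 : ∀ x : ℕ, x % M % 2 = x % 2 := fun x =>
    Nat.mod_mod_of_dvd x (by omega)
  have m3 : ∀ x : ℕ, x % M % 3 = x % 3 := fun x =>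
    Nat.mod_mod_of_dvd x (by omega)
  unfold dead at hcon
  simp only [Bool.or_eq_true] at hcon
  rcases hcon with (((((((h | h) | h) | h) | h) | h) | h) | h) | h
  · refine sound_alg ha hb hk H ?_
    unfold alg at h ⊢
    rw [m2, m2, m3, m3] at h
    exact h
  · rw [List.any_eq_true] at h
    obtain ⟨q, hq, h⟩ := h
    rw [hres q hq] at h
    exact sound_pure ha hb hk H (hL q hq).1 h
  · rw [Bool.and_eq_true, Nat.ble_eq] at h
    obtain ⟨-, y, hy⟩ := side_rule (m := 2 ^ a * 3 ^ b + 1) (J := 1)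
      (D := L.filter fun q => (2 ^ (a % M) * 3 ^ (b % M)) % q + 1 == q)
      (by
        intro q hq
        rw [List.mem_filter, beq_iff_eq] at hq
        refine ⟨(hL q hq.1).1, dvd_add_of_mod ?_⟩
        rw [← hres q hq.1]; exact hq.2)
      (hn.filter _) (by omega) (by omega) h.2 (posP H 1 (by omega))
    exact not_sq (by omega) (by omega) hN hy
  · rw [Bool.and_eq_true, Nat.ble_eq] at h
    have := (side_rule (m := 2 ^ a * 3 ^ b - 1) (J := 23)
      (D := L.filter fun q => (2 ^ (a % M) * 3 ^ (b % M)) % q == 1)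
      (by
        intro q hq
        rw [List.mem_filter, beq_iff_eq] at hq
        refine ⟨(hL q hq.1).1, dvd_sub_of_mod ?_⟩
        rw [← hres q hq.1]; exact hq.2)
      (hn.filter _) (by omega) (by omega) h.2 (posM ha hb H hk 1 h.1)).1
    omega
  · rw [Bool.and_eq_true, beq_iff_eq] at h
    have := (side_rule (m := 2 ^ a * 3 ^ b + 5) (J := 5)
      (D := L.filter fun q => (2 ^ (a % M) * 3 ^ (b % M)) % q + 5 == q)
      (by
        intro q hq
        rw [List.mem_filter, beq_iff_eq] at hq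
        refine ⟨(hL q hq.1).1, dvd_add_of_mod ?_⟩
        rw [← hres q hq.1]; exact hq.2)
      (hn.filter _) (by omega) (by omega) h.2 (posP H 5 (by omega))).1
    omega
  · rw [Bool.and_eq_true, beq_iff_eq] at h
    have := (side_rule (m := 2 ^ a * 3 ^ b - 5) (J := 19)
      (D := L.filter fun q => (2 ^ (a % M) * 3 ^ (b % M)) % q == 5)
      (by
        intro q hq
        rw [List.mem_filter, beq_iff_eq] at hq
        refine ⟨(hL q hq.1).1, dvd_sub_of_mod ?_⟩
        rw [← hres q hq.1]; exact hq.2)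
      (hn.filter _) (by omega) (by omega) h.2 (posM ha hb H hk 5 (by omega))).1
    omega
  · simp only [Bool.and_eq_true, Nat.ble_eq, beq_iff_eq, List.any_eq_true] at h
    obtain ⟨⟨⟨h1, h2⟩, h3⟩, q, hq, h4⟩ := h
    rw [m2] at h2 h3
    rw [hres q hq] at h4
    exact ruleA (x := a / 2) (y := b / 2) (hL q hq).1 (by omega) (by omega)
      (by rw [← sqForm h2 h3]) (posM ha hb H hk 1 h1) (dvd_sub_of_mod h4)
  · simp only [Bool.and_eq_true, Nat.ble_eq, beq_iff_eq, List.any_eq_true] at h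
    obtain ⟨⟨⟨h1, h2⟩, h3⟩, q, hq, h4⟩ := h
    rw [hresB q hq h2 h3] at h4
    rw [m3] at h2 h3
    exact ruleBP (x := a / 3) (y := b / 3) (hB q hq).1 (by omega) (by omega)
      (by rw [← cubeForm h2 h3]) (posP H 1 (by omega)) (dvd_add_of_mod h4)
  · simp only [Bool.and_eq_true, Nat.ble_eq, beq_iff_eq, List.any_eq_true] at h
    obtain ⟨⟨⟨h1, h2⟩, h3⟩, q, hq, h4⟩ := h
    rw [hresB q hq h2 h3] at h4
    rw [m3] at h2 h3
    exact ruleBM (x := a / 3) (y := b / 3) (hB q hq).1 (by omega) (by omega)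
      (by rw [← cubeForm h2 h3]) (posM ha hb H hk 1 h1) (dvd_sub_of_mod h4)

end

end Pool.Agent.Helper13.Six
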