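import Mathlib
import Pool.Agent.Helper13.Six.Cover

/-!
# Six consecutive integers: the classes of exponents modulo 60
-/

open scoped ArithmeticFunction.omega

namespace Pool.Agent.Helper13.Six

open Pool.Agent.Helper90.FiveModSix

/-- the classes modulo 12 not removed by the primes 5, 7, 13 -/
def T12 : List (ℕ × ℕ × ℕ) :=
  [(0, 6, 8), (0, 8, 2), (0, 8, 10), (0, 10, 4),
   (2, 1, 1), (2, 1, 5), (2, 1, 11), (2, 5, 3), (2, 5, 9), (2, 7, 5), (2, 7, 7), (2, 7, 11),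
   (2, 11, 3), (2, 11, 9),
   (3, 1, 1), (3, 2, 0), (3, 7, 7), (3, 8, 6),
   (4, 1, 1), (4, 3, 11), (4, 5, 1), (4, 7, 7), (4, 9, 5), (4, 11, 7), (4, 11, 11),
   (5, 1, 1), (5, 3, 11), (5, 5, 1), (5, 7, 7), (5, 9, 5), (5, 11, 7), (5, 11, 11)]

lemma tab12' : ((List.range 6).all fun k => (List.range 12).all fun r =>
    (List.range 12).all fun s => k == 1 || dead [5, 7, 13] [5] k r s ||
      T12.contains (k, r, s)) = true := by
  decide +kernel

lemma tab12 {k r s : ℕ} (hk : k < 6) (hk1 : k ≠ 1) (hr : r < 12) (hs : s < 12)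
    (h : dead [5, 7, 13] [5] k r s = false) : (k, r, s) ∈ T12 := by
  have h1 := tab12'
  rw [List.all_eq_true] at h1
  have h2 := h1 k (List.mem_range.mpr hk)
  rw [List.all_eq_true] at h2
  have h3 := h2 r (List.mem_range.mpr hr)
  rw [List.all_eq_true] at h3
  have h4 := h3 s (List.mem_range.mpr hs)
  rw [h, Bool.or_false, Bool.or_eq_true, beq_iff_eq] at h4
  rcases h4 with h4 | h4
  · exact absurd h4 hk1
  · rwa [List.contains_iff_mem] at h4

/-- primes for the modulus 60 -/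
def L60 : List ℕ := [5, 7, 13, 11, 31, 61]

/-- primes for the cubes, modulus 60 -/
def B60 : List ℕ := [5, 11]

lemma L60_ok : ∀ q ∈ L60, q ∈ QL ∧ 2 ^ 60 % q = 1 ∧ 3 ^ 60 % q = 1 := by decide +kernel

lemma B60_ok : ∀ q ∈ B60, q ∈ QL ∧ 2 ^ (60 / 3) % q = 1 ∧ 3 ^ (60 / 3) % q = 1 := by
  decide +kernel

lemma L12_ok : ∀ q ∈ [5, 7, 13], q ∈ QL ∧ 2 ^ 12 % q = 1 ∧ 3 ^ 12 % q = 1 := by decide +kernel

lemma B12_ok : ∀ q ∈ [5], q ∈ QL ∧ 2 ^ (12 / 3) % q = 1 ∧ 3 ^ (12 / 3) % q = 1 := by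
  decide +kernel

/-- the classes modulo 60 which are not removed -/
def T60 : List (ℕ × ℕ × ℕ) :=
  (T12.flatMap fun t => (List.range 5).flatMap fun u => (List.range 5).map fun v =>
    (t.1, t.2.1 + 12 * u, t.2.2 + 12 * v)).filter fun t => !dead L60 B60 t.1 t.2.1 t.2.2

lemma T60_len : T60.length ≤ 413 := by decide +kernel

lemma mem_T60 {k a b : ℕ} (h12 : (k, a % 12, b % 12) ∈ T12)
    (h60 : dead L60 B60 k (a % 60) (b % 60) = false) : (k, a % 60, b % 60) ∈ T60 := by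
  unfold T60
  rw [List.mem_filter]
  refine ⟨?_, by rw [h60]; rfl⟩
  rw [List.mem_flatMap]
  refine ⟨_, h12, ?_⟩
  rw [List.mem_flatMap]
  refine ⟨a % 60 / 12, List.mem_range.mpr (by omega), ?_⟩
  rw [List.mem_map]
  refine ⟨b % 60 / 12, List.mem_range.mpr (by omega), ?_⟩
  have h1 : a % 12 + 12 * (a % 60 / 12) = a % 60 := by omega
  have h2 : b % 12 + 12 * (b % 60 / 12) = b % 60 := by omega
  simp only [h1, h2]

/-- the class modulo 60 of an exceptional pair of exponents -/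
lemma class_mem {a b k : ℕ} (ha : 24 ≤ a) (hb : 24 ≤ b) (hk : k ≤ 5) (hk1 : k ≠ 1)
    (H : ∀ i < 6, ω (2 ^ a * 3 ^ b + i - k) ≤ 2) : (k, a % 60, b % 60) ∈ T60 := by
  have h12 := sound ha hb hk H (L := [5, 7, 13]) (B := [5]) (M := 12) L12_ok B12_ok
    (by decide) (by norm_num) (by norm_num)
  have h60 := sound ha hb hk H (L := L60) (B := B60) (M := 60) L60_ok B60_ok
    (by decide) (by norm_num) (by norm_num)
  exact mem_T60 (tab12 (by omega) hk1 (Nat.mod_lt _ (by norm_num)) (Nat.mod_lt _ (by norm_num))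
    h12) h60

attribute [irreducible] T60

end Pool.Agent.Helper13.Six
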