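import Mathlib

/-!
# Lattice points under a line
-/

namespace Pool.Agent.Helper13.Six

/-- the number of points of the first quadrant under the line `α x + β y = T` -/
lemma lattice {α β T : ℝ} (hα : 0 < α) (hβ : 0 < β) (hT : 0 ≤ T) (S : Finset (ℕ × ℕ))
    (hS : ∀ p ∈ S, α * p.1 + β * p.2 ≤ T) :
    (S.card : ℝ) ≤ α / β * ((T / α + 1 / 2) ^ 2 / 2) + T / α + 1 := by
  classical
  set m : ℕ := ⌊T / α⌋₊ with hm
  have ht0 : 0 ≤ T / α := div_nonneg hT hα.le
  have hm1 : (m : ℝ) ≤ T / α := Nat.floor_le ht0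
  let f : ℕ → ℕ := fun i => ⌊(T - α * i) / β⌋₊ + 1
  have hsub : S ⊆ (Finset.range (m + 1)).biUnion fun i =>
      ({i} : Finset ℕ) ×ˢ Finset.range (f i) := by
    rintro ⟨i, j⟩ hp
    have h := hS _ hp
    simp only at h
    have hj0 : (0 : ℝ) ≤ β * j := mul_nonneg hβ.le (Nat.cast_nonneg j)
    rw [Finset.mem_biUnion]
    refine ⟨i, ?_, ?_⟩
    · rw [Finset.mem_range, Nat.lt_succ_iff, hm]
      apply Nat.le_floor
      rw [le_div_iff₀ hα]
      linarith
    · rw [Finset.mem_product, Finset.mem_singleton, Finset.mem_range]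
      refine ⟨rfl, ?_⟩
      simp only [f]
      rw [Nat.lt_succ_iff]
      apply Nat.le_floor
      rw [le_div_iff₀ hβ]
      linarith
  have hcard : S.card ≤ ∑ i ∈ Finset.range (m + 1), f i := by
    refine (Finset.card_le_card hsub).trans (Finset.card_biUnion_le.trans ?_)
    refine Finset.sum_le_sum fun i _ => ?_
    rw [Finset.card_product, Finset.card_singleton, one_mul, Finset.card_range]
  have hf : ∀ i ∈ Finset.range (m + 1), ((f i : ℕ) : ℝ) ≤ (T - α * i) / β + 1 := by
    intro i hi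
    have hi' : (i : ℝ) ≤ m := by
      exact_mod_cast Nat.lt_succ_iff.1 (Finset.mem_range.1 hi)
    have h0 : 0 ≤ T - α * i := by
      have : α * i ≤ α * (T / α) := mul_le_mul_of_nonneg_left (hi'.trans hm1) hα.le
      rw [mul_div_cancel₀ _ hα.ne'] at this
      linarith
    simp only [f]
    push_cast
    have := Nat.floor_le (div_nonneg h0 hβ.le)
    linarith
  have hsum : ∑ i ∈ Finset.range (m + 1), ((T - α * (i : ℝ)) / β + 1) =
      (m + 1) * (T / β) - α / β * (m * (m + 1) / 2) + (m + 1) := by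
    have h1 : ∀ i : ℕ, (T - α * (i : ℝ)) / β + 1 = (T / β + 1) - α / β * i := by
      intro i
      field_simp
      ring
    rw [Finset.sum_congr rfl fun i _ => h1 i, Finset.sum_sub_distrib, Finset.sum_const,
      Finset.card_range, ← Finset.mul_sum]
    have h2 : (∑ i ∈ Finset.range (m + 1), (i : ℝ)) = m * (m + 1) / 2 := by
      have h3 := Finset.sum_range_id_mul_two (m + 1)
      have h4 : (∑ i ∈ Finset.range (m + 1), (i : ℝ)) * 2 = (m + 1) * m := by
        have : ((∑ i ∈ Finset.range (m + 1), i : ℕ) : ℝ) * 2 = (((m + 1) * (m + 1 - 1) : ℕ) : ℝ) := by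
          exact_mod_cast h3
        rw [Nat.add_sub_cancel] at this
        push_cast at this
        exact this
      linarith
    rw [h2, nsmul_eq_mul]
    push_cast
    ring
  have hfin : (S.card : ℝ) ≤ (m + 1) * (T / β) - α / β * (m * (m + 1) / 2) + (m + 1) := by
    rw [← hsum]
    calc (S.card : ℝ) ≤ ((∑ i ∈ Finset.range (m + 1), f i : ℕ) : ℝ) := by exact_mod_cast hcard
      _ = ∑ i ∈ Finset.range (m + 1), ((f i : ℕ) : ℝ) := by push_cast; rfl
      _ ≤ _ := Finset.sum_le_sum hf
  set t := T / α with htdef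
  have hTt : T / β = α / β * t := by
    rw [htdef]
    field_simp
  rw [hTt] at hfin
  have hab : 0 < α / β := div_pos hα hβ
  have key : ((m : ℝ) + 1) * t - m * (m + 1) / 2 ≤ (t + 1 / 2) ^ 2 / 2 := by
    nlinarith [sq_nonneg (t - m - 1 / 2)]
  have := mul_le_mul_of_nonneg_left key hab.le
  nlinarith

end Pool.Agent.Helper13.Six
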