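import Mathlib
import Pool.Agent.Helper13.Six.Parity
import Pool.Agent.Helper13.Six.Count
import Pool.Agent.Helper13.Six.Lattice

/-!
# Six consecutive integers: structure and number of the exceptions
-/

open scoped ArithmeticFunction.omega

namespace Pool.Agent.Helper13.Six

open Pool.Agent.Helper90.FiveModSix

/-- the multiple of 6 among six consecutive integers -/
lemma form {n : ℕ} (hn : 0 < n) (H : ∀ i < 6, ω (n + i) ≤ 2) :
    ∃ k a b : ℕ, k ≤ 5 ∧ 1 ≤ a ∧ 1 ≤ b ∧ n + k = 2 ^ a * 3 ^ b ∧ (n + k) % 6 = 0 := by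
  obtain ⟨k, hk, hk6⟩ : ∃ k, k ≤ 5 ∧ (n + k) % 6 = 0 := by
    refine ⟨(6 - n % 6) % 6, by omega, by omega⟩
  obtain ⟨a, b, ha, hb, h⟩ := two_primes (m := n + k) (by omega) Nat.prime_two Nat.prime_three
    (by norm_num) (by omega) (by omega) (H k (by omega))
  exact ⟨k, a, b, hk, ha, hb, h, hk6⟩

lemma sqForm' {a b : ℕ} (ha : a % 2 = 1) (hb : b % 2 = 1) :
    2 ^ a * 3 ^ b = 6 * (2 ^ ((a - 1) / 2) * 3 ^ ((b - 1) / 2)) ^ 2 := by
  obtain ⟨c, rfl⟩ : ∃ c, a = 2 * c + 1 := ⟨a / 2, by omega⟩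
  obtain ⟨d, rfl⟩ : ∃ d, b = 2 * d + 1 := ⟨b / 2, by omega⟩
  have h1 : (2 * c + 1 - 1) / 2 = c := by omega
  have h2 : (2 * d + 1 - 1) / 2 = d := by omega
  rw [h1, h2]
  ring

lemma not_one {n k a b : ℕ} (hn : 2304 ≤ n) (H : ∀ i < 6, ω (n + i) ≤ 2) (ha : 1 ≤ a)
    (hb : 1 ≤ b) (h : n + k = 2 ^ a * 3 ^ b) : k ≠ 1 := by
  rintro rfl
  have e : ∀ j ≤ 4, 2 ^ a * 3 ^ b + j = n + (j + 1) := fun j _ => by omega
  have e0 : 2 ^ a * 3 ^ b - 1 = n := by omega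
  refine main ha hb (by omega) ?_ ?_ ?_ ?_ ?_
  · rw [e0]; exact H 0 (by norm_num)
  · rw [e 1 (by norm_num)]; exact H _ (by norm_num)
  · rw [e 2 (by norm_num)]; exact H _ (by norm_num)
  · rw [e 3 (by norm_num)]; exact H _ (by norm_num)
  · rw [e 4 (by norm_num)]; exact H _ (by norm_num)

theorem structure_thm {n : ℕ} (hn : 2304 ≤ n) (H : ∀ i < 6, ω (n + i) ≤ 2) :
    n % 6 ≠ 5 ∧ (n % 6 = 0 → ∃ m, n = m ^ 2) ∧
    (n % 6 = 3 → (∃ m, n + 3 = m ^ 2) ∨ ∃ m, n + 3 = 6 * m ^ 2) ∧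
    (n % 6 = 4 → ∃ m, n + 2 = 6 * m ^ 2) ∧ (n % 6 = 2 → ∃ m, n + 4 = 6 * m ^ 2) ∧
    (n % 6 = 1 → ∃ m, n + 5 = 6 * m ^ 2) := by
  obtain ⟨k, a, b, hk, ha, hb, h, h6⟩ := form (by omega) H
  have hk1 := not_one hn H ha hb h
  have Hp : ∀ j, k + j ≤ 5 → ω (2 ^ a * 3 ^ b + j) ≤ 2 := by
    intro j hj
    rw [← h, add_assoc]
    exact H _ (by omega)
  have Hm : ∀ j, j ≤ k → ω (2 ^ a * 3 ^ b - j) ≤ 2 := by
    intro j hj
    rw [← h, show n + k - j = n + (k - j) by omega]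
    exact H _ (by omega)
  refine ⟨by omega, ?_, ?_, ?_, ?_, ?_⟩
  · intro h0
    obtain rfl : k = 0 := by omega
    rcases Nat.eq_or_lt_of_le hn with h1 | h1
    · exact ⟨48, by omega⟩
    · obtain ⟨h2, h3⟩ := k0 ha hb (by omega) (Hp 1 (by omega)) (Hp 2 (by omega))
        (Hp 3 (by omega)) (Hp 4 (by omega))
      exact ⟨_, by rw [← sqForm h2 h3]; omega⟩
  · intro h0
    obtain rfl : k = 3 := by omega
    have h2 := k3 ha hb (by omega) (Hm 2 (by omega)) (Hp 2 (by omega))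
    rcases Nat.mod_two_eq_zero_or_one a with h3 | h3
    · left
      exact ⟨_, by rw [h]; exact sqForm h3 (by omega)⟩
    · right
      exact ⟨_, by rw [h]; exact sqForm' h3 (by omega)⟩
  · intro h0
    obtain rfl : k = 2 := by omega
    obtain ⟨h2, h3⟩ := k2 ha hb (by omega) (Hm 2 (by omega)) (Hm 1 (by omega))
      (Hp 2 (by omega)) (Hp 3 (by omega))
    exact ⟨_, by rw [h]; exact sqForm' h2 h3⟩
  · intro h0
    obtain rfl : k = 4 := by omega
    obtain ⟨h2, h3⟩ := k45 ha hb (by omega) (Hm 4 (by omega)) (Hm 3 (by omega))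
      (Hm 2 (by omega))
    exact ⟨_, by rw [h]; exact sqForm' h2 h3⟩
  · intro h0
    obtain rfl : k = 5 := by omega
    obtain ⟨h2, h3⟩ := k45 ha hb (by omega) (Hm 4 (by omega)) (Hm 3 (by omega))
      (Hm 2 (by omega))
    exact ⟨_, by rw [h]; exact sqForm' h2 h3⟩

/-- the pairs of exponents of the numbers `2 ^ a 3 ^ b ≤ y` -/
def P (y : ℕ) : Finset (ℕ × ℕ) :=
  (Finset.range (y + 1) ×ˢ Finset.range (y + 1)).filter fun p => 2 ^ p.1 * 3 ^ p.2 ≤ y

lemma mem_P {y a b : ℕ} : (a, b) ∈ P y ↔ 2 ^ a * 3 ^ b ≤ y := by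
  unfold P
  rw [Finset.mem_filter, Finset.mem_product, Finset.mem_range, Finset.mem_range]
  refine ⟨fun h => h.2, fun h => ⟨⟨?_, ?_⟩, h⟩⟩
  · have h1 : a < 2 ^ a := Nat.lt_two_pow_self
    have h2 : 2 ^ a * 1 ≤ 2 ^ a * 3 ^ b := Nat.mul_le_mul_left _ (Nat.one_le_pow _ _ (by norm_num))
    omega
  · have h1 : b < 3 ^ b := Nat.lt_pow_self (by norm_num)
    have h2 : 1 * 3 ^ b ≤ 2 ^ a * 3 ^ b :=
      Nat.mul_le_mul_right _ (Nat.one_le_pow _ _ (by norm_num))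
    omega

lemma log_le {y a b : ℕ} (h : 2 ^ a * 3 ^ b ≤ y) :
    (a : ℝ) * Real.log 2 + b * Real.log 3 ≤ Real.log y := by
  rw [← Real.log_pow, ← Real.log_pow, ← Real.log_mul (by positivity) (by positivity)]
  exact Real.log_le_log (by positivity) (by exact_mod_cast h)

lemma card_class (y r s : ℕ) (hy : 1 ≤ y) :
    (((P y).filter fun p => p.1 % 60 = r ∧ p.2 % 60 = s).card : ℝ) ≤
      Real.log 2 / Real.log 3 * ((Real.log y / (60 * Real.log 2) + 1 / 2) ^ 2 / 2) +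
        Real.log y / (60 * Real.log 2) + 1 := by
  classical
  have h2 : 0 < Real.log 2 := Real.log_pos (by norm_num)
  have h3 : 0 < Real.log 3 := Real.log_pos (by norm_num)
  have hy0 : 0 ≤ Real.log y := Real.log_nonneg (by exact_mod_cast hy)
  set S := (P y).filter fun p => p.1 % 60 = r ∧ p.2 % 60 = s with hS
  have hinj : Set.InjOn (fun p : ℕ × ℕ => (p.1 / 60, p.2 / 60)) (S : Set (ℕ × ℕ)) := by
    rintro ⟨a, b⟩ hp ⟨a', b'⟩ hp' h
    rw [Finset.mem_coe, hS, Finset.mem_filter] at hp hp'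
    simp only [Prod.mk.injEq] at h hp hp' ⊢
    omega
  have h := lattice (α := 60 * Real.log 2) (β := 60 * Real.log 3) (T := Real.log y)
    (by positivity) (by positivity) hy0 (S.image fun p : ℕ × ℕ => (p.1 / 60, p.2 / 60)) (by
      intro p hp
      rw [Finset.mem_image] at hp
      obtain ⟨⟨a, b⟩, hp, rfl⟩ := hp
      rw [hS, Finset.mem_filter, mem_P] at hp
      have h4 := log_le hp.1
      have ha : ((a / 60 : ℕ) : ℝ) * 60 ≤ a := by exact_mod_cast Nat.div_mul_le_self a 60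
      have hb : ((b / 60 : ℕ) : ℝ) * 60 ≤ b := by exact_mod_cast Nat.div_mul_le_self b 60
      have ha' := mul_le_mul_of_nonneg_right ha h2.le
      have hb' := mul_le_mul_of_nonneg_right hb h3.le
      simp only
      linarith)
  rw [Finset.card_image_of_injOn hinj] at h
  have e : 60 * Real.log 2 / (60 * Real.log 3) = Real.log 2 / Real.log 3 :=
    mul_div_mul_left _ _ (by norm_num)
  rwa [e] at h

lemma card_small (y : ℕ) (hy : 1 ≤ y) :
    (((P y).filter fun p => p.1 < 24 ∨ p.2 < 24).card : ℝ) ≤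
      24 * (Real.log y / Real.log 3 + 1) + (Real.log y / Real.log 2 + 1) * 24 := by
  classical
  have h2 : 0 < Real.log 2 := Real.log_pos (by norm_num)
  have h3 : 0 < Real.log 3 := Real.log_pos (by norm_num)
  have hy0 : 0 ≤ Real.log y := Real.log_nonneg (by exact_mod_cast hy)
  have hsub : ((P y).filter fun p => p.1 < 24 ∨ p.2 < 24) ⊆
      (Finset.range 24 ×ˢ Finset.range (⌊Real.log y / Real.log 3⌋₊ + 1)) ∪
      (Finset.range (⌊Real.log y / Real.log 2⌋₊ + 1) ×ˢ Finset.range 24) := by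
    rintro ⟨a, b⟩ hp
    rw [Finset.mem_filter, mem_P] at hp
    have h4 := log_le hp.1
    have ha0 : (0 : ℝ) ≤ a * Real.log 2 := by positivity
    have hb0 : (0 : ℝ) ≤ b * Real.log 3 := by positivity
    rw [Finset.mem_union, Finset.mem_product, Finset.mem_product, Finset.mem_range,
      Finset.mem_range, Finset.mem_range, Finset.mem_range]
    rcases hp.2 with h | h
    · left
      refine ⟨h, Nat.lt_succ_of_le (Nat.le_floor ?_)⟩
      rw [le_div_iff₀ h3]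
      linarith
    · right
      refine ⟨Nat.lt_succ_of_le (Nat.le_floor ?_), h⟩
      rw [le_div_iff₀ h2]
      linarith
  have h5 := (Finset.card_le_card hsub).trans (Finset.card_union_le _ _)
  rw [Finset.card_product, Finset.card_product, Finset.card_range, Finset.card_range,
    Finset.card_range] at h5
  have h6 : (((P y).filter fun p => p.1 < 24 ∨ p.2 < 24).card : ℝ) ≤
      24 * ((⌊Real.log y / Real.log 3⌋₊ : ℝ) + 1) + ((⌊Real.log y / Real.log 2⌋₊ : ℝ) + 1) * 24 := by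
    exact_mod_cast h5
  have h7 := Nat.floor_le (div_nonneg hy0 h3.le)
  have h8 := Nat.floor_le (div_nonneg hy0 h2.le)
  linarith

lemma exc_sub {x n : ℕ} (hnx : n ≤ x) (H : ∀ i < 6, ω (n + i) ≤ 2) : n < 2304 ∨
    (∃ t ∈ T60, ∃ a b : ℕ, 2 ^ a * 3 ^ b ≤ x + 5 ∧ (a % 60 = t.2.1 ∧ b % 60 = t.2.2) ∧
      2 ^ a * 3 ^ b - t.1 = n) ∨
    ∃ k < 6, ∃ a b : ℕ, 2 ^ a * 3 ^ b ≤ x + 5 ∧ (a < 24 ∨ b < 24) ∧ 2 ^ a * 3 ^ b - k = n := by
  rcases Nat.lt_or_ge n 2304 with h | h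
  · exact Or.inl h
  · refine Or.inr ?_
    obtain ⟨k, a, b, hk, ha, hb, he, h6⟩ := form (by omega) H
    have hk1 := not_one h H ha hb he
    have hP : 2 ^ a * 3 ^ b ≤ x + 5 := by omega
    have hn : 2 ^ a * 3 ^ b - k = n := by omega
    rcases Nat.lt_or_ge a 24 with h24 | h24
    · exact Or.inr ⟨k, by omega, a, b, hP, Or.inl h24, hn⟩
    rcases Nat.lt_or_ge b 24 with h24' | h24'
    · exact Or.inr ⟨k, by omega, a, b, hP, Or.inr h24', hn⟩
    refine Or.inl ⟨(k, a % 60, b % 60), ?_, a, b, hP, ⟨rfl, rfl⟩, hn⟩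
    refine class_mem h24 h24' hk hk1 fun i hi => ?_
    rw [← he, show n + k + i - k = n + i by omega]
    exact H i hi

/-- the pairs of exponents in a class modulo 60 -/
def cls (y : ℕ) (t : ℕ × ℕ × ℕ) : Finset (ℕ × ℕ) :=
  (P y).filter fun p => p.1 % 60 = t.2.1 ∧ p.2 % 60 = t.2.2

/-- the pairs of exponents with a small exponent -/
def sm (y : ℕ) : Finset (ℕ × ℕ) := (P y).filter fun p => p.1 < 24 ∨ p.2 < 24

/-- the candidates with large exponents -/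
def A1 (y : ℕ) : Finset ℕ :=
  T60.toFinset.biUnion fun t => (cls y t).image fun p => 2 ^ p.1 * 3 ^ p.2 - t.1

/-- the candidates with a small exponent -/
def A2 (y : ℕ) : Finset ℕ :=
  (Finset.range 6).biUnion fun k => (sm y).image fun p => 2 ^ p.1 * 3 ^ p.2 - k

lemma mem_A1 {y n a b : ℕ} {t : ℕ × ℕ × ℕ} (ht : t ∈ T60) (h1 : 2 ^ a * 3 ^ b ≤ y)
    (h2 : a % 60 = t.2.1 ∧ b % 60 = t.2.2) (h3 : 2 ^ a * 3 ^ b - t.1 = n) : n ∈ A1 y :=
  Finset.mem_biUnion.2 ⟨t, List.mem_toFinset.2 ht,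
    Finset.mem_image.2 ⟨(a, b), Finset.mem_filter.2 ⟨mem_P.2 h1, h2⟩, h3⟩⟩

lemma mem_A2 {y n a b k : ℕ} (hk : k < 6) (h1 : 2 ^ a * 3 ^ b ≤ y)
    (h2 : a < 24 ∨ b < 24) (h3 : 2 ^ a * 3 ^ b - k = n) : n ∈ A2 y :=
  Finset.mem_biUnion.2 ⟨k, Finset.mem_range.2 hk,
    Finset.mem_image.2 ⟨(a, b), Finset.mem_filter.2 ⟨mem_P.2 h1, h2⟩, h3⟩⟩

lemma mem_A {x n : ℕ} (hnx : n ≤ x) (H : ∀ i < 6, ω (n + i) ≤ 2) :
    n < 2304 ∨ n ∈ A1 (x + 5) ∨ n ∈ A2 (x + 5) :=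
  (exc_sub hnx H).imp id (Or.imp
    (fun ⟨_, ht, _, _, h1, h2, h3⟩ => mem_A1 ht h1 h2 h3)
    fun ⟨_, hk, _, _, h1, h2, h3⟩ => mem_A2 hk h1 h2 h3)

lemma card_A1 (y : ℕ) (hy : 1 ≤ y) : ((A1 y).card : ℝ) ≤ 413 * (Real.log 2 / Real.log 3 *
    ((Real.log y / (60 * Real.log 2) + 1 / 2) ^ 2 / 2) + Real.log y / (60 * Real.log 2) + 1) := by
  set B1 := Real.log 2 / Real.log 3 *
        ((Real.log y / (60 * Real.log 2) + 1 / 2) ^ 2 / 2) +
        Real.log y / (60 * Real.log 2) + 1 with hB1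
  have h1 : (A1 y).card ≤ ∑ t ∈ T60.toFinset, (cls y t).card :=
    Finset.card_biUnion_le.trans (Finset.sum_le_sum fun t _ => Finset.card_image_le)
  have hB : 0 ≤ B1 := (Nat.cast_nonneg _).trans (card_class y 0 0 hy)
  calc ((A1 y).card : ℝ) ≤ ((∑ t ∈ T60.toFinset, (cls y t).card : ℕ) : ℝ) := by exact_mod_cast h1
    _ = ∑ t ∈ T60.toFinset, ((cls y t).card : ℝ) := by push_cast; rfl
    _ ≤ ∑ t ∈ T60.toFinset, B1 :=
      Finset.sum_le_sum fun t _ => card_class y t.2.1 t.2.2 hy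
    _ = T60.toFinset.card * B1 := by rw [Finset.sum_const, nsmul_eq_mul]
    _ ≤ 413 * B1 := by
      refine mul_le_mul_of_nonneg_right ?_ hB
      exact_mod_cast (List.toFinset_card_le T60).trans T60_len

lemma card_A2 (y : ℕ) (hy : 1 ≤ y) : ((A2 y).card : ℝ) ≤
    6 * (24 * (Real.log y / Real.log 3 + 1) + (Real.log y / Real.log 2 + 1) * 24) := by
  have h1 : (A2 y).card ≤ ∑ k ∈ Finset.range 6, (sm y).card :=
    Finset.card_biUnion_le.trans (Finset.sum_le_sum fun t _ => Finset.card_image_le)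
  rw [Finset.sum_const, Finset.card_range, smul_eq_mul] at h1
  have h2 := card_small y hy
  calc ((A2 y).card : ℝ) ≤ ((6 * (sm y).card : ℕ) : ℝ) := by exact_mod_cast h1
    _ = 6 * ((sm y).card : ℝ) := by push_cast; rfl
    _ ≤ _ := mul_le_mul_of_nonneg_left h2 (by norm_num)

lemma card_exc (x : ℕ) :
    ((({n : ℕ | n ≤ x ∧ ∀ i < 6, ω (n + i) ≤ 2} : Set ℕ).ncard : ℕ) : ℝ) ≤
      2304 + (413 * (Real.log 2 / Real.log 3 *
        ((Real.log (x + 5 : ℕ) / (60 * Real.log 2) + 1 / 2) ^ 2 / 2) +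
        Real.log (x + 5 : ℕ) / (60 * Real.log 2) + 1) +
      6 * (24 * (Real.log (x + 5 : ℕ) / Real.log 3 + 1) +
        (Real.log (x + 5 : ℕ) / Real.log 2 + 1) * 24)) := by
  have hsub : ({n : ℕ | n ≤ x ∧ ∀ i < 6, ω (n + i) ≤ 2} : Set ℕ) ⊆
      ((Finset.range 2304 ∪ (A1 (x + 5) ∪ A2 (x + 5)) : Finset ℕ) : Set ℕ) := by
    intro n hn
    rw [Finset.mem_coe, Finset.mem_union, Finset.mem_range, Finset.mem_union]
    exact mem_A hn.1 hn.2
  have hA1 := card_A1 (x + 5) (by omega)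
  have hA2 := card_A2 (x + 5) (by omega)
  have hn := Set.ncard_le_ncard hsub (Finset.finite_toSet _)
  rw [Set.ncard_coe_finset] at hn
  have hc := hn.trans ((Finset.card_union_le _ _).trans
    (Nat.add_le_add_left (Finset.card_union_le _ _) _))
  rw [Finset.card_range] at hc
  have hc' : ((({n : ℕ | n ≤ x ∧ ∀ i < 6, ω (n + i) ≤ 2} : Set ℕ).ncard : ℕ) : ℝ) ≤
      2304 + (((A1 (x + 5)).card : ℝ) + (A2 (x + 5)).card) := by exact_mod_cast hc
  linarith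

lemma log_three : 19 / 12 * Real.log 2 ≤ Real.log 3 := by
  have h : Real.log ((2 : ℝ) ^ 19) ≤ Real.log ((3 : ℝ) ^ 12) :=
    Real.log_le_log (by positivity) (by norm_num)
  rw [Real.log_pow, Real.log_pow] at h
  push_cast at h
  linarith

theorem count_thm : ∃ C : ℝ, ∀ x : ℕ, 2 ≤ x →
    ((({n : ℕ | n ≤ x ∧ ∀ i < 6, ω (n + i) ≤ 2} : Set ℕ).ncard : ℕ) : ℝ) ≤
      Real.log x ^ 2 / 13 + C * Real.log x := by
  have h2 : 0.6931471803 < Real.log 2 := Real.log_two_gt_d9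
  have h20 : 0 < Real.log 2 := by linarith
  have h3 := log_three
  have h30 : 0 < Real.log 3 := by linarith
  set u := Real.log 2 with hu
  set v := Real.log 3 with hv
  have hc1 : 413 / (7200 * (u * v)) ≤ 1 / 13 := by
    rw [div_le_div_iff₀ (by positivity) (by norm_num)]
    nlinarith
  have hc0 : 0 ≤ 413 / (7200 * (u * v)) := by positivity
  -- the bound is `c1 L ^ 2 + c2 L + c3` with `L ≤ log x + 2 log 2`
  set c1 := 413 / (7200 * (u * v)) with hc1d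
  set c2 := 413 / (120 * v) + 413 / (60 * u) + 144 / v + 144 / u with hc2d
  set c3 := 2304 + 413 * (u / v) / 8 + 413 + 288 with hc3d
  have hc2 : 0 ≤ c2 := by positivity
  have hc3 : 0 ≤ c3 := by positivity
  refine ⟨4 * c1 * u + c2 + (4 * c1 * u ^ 2 + 2 * c2 * u + c3) / u, fun x hx => ?_⟩
  have hx2 : (2 : ℝ) ≤ x := by exact_mod_cast hx
  have hlx : u ≤ Real.log x := Real.log_le_log (by norm_num) hx2
  have hL : Real.log ((x + 5 : ℕ) : ℝ) ≤ Real.log x + 2 * u := by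
    have h4 : Real.log ((x + 5 : ℕ) : ℝ) ≤ Real.log (4 * x) := by
      refine Real.log_le_log (by positivity) ?_
      push_cast
      linarith
    have h5 : Real.log (4 * (x : ℝ)) = Real.log x + 2 * u := by
      rw [Real.log_mul (by norm_num) (by positivity), show (4 : ℝ) = 2 ^ 2 by norm_num,
        Real.log_pow]
      push_cast
      ring
    linarith
  have hL0 : 0 ≤ Real.log ((x + 5 : ℕ) : ℝ) :=
    Real.log_nonneg (by exact_mod_cast (by omega : 1 ≤ x + 5))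
  have h6 := card_exc x
  set L := Real.log ((x + 5 : ℕ) : ℝ) with hLd
  set l := Real.log (x : ℝ) with hld
  have e : 2304 + (413 * (u / v * ((L / (60 * u) + 1 / 2) ^ 2 / 2) + L / (60 * u) + 1) +
      6 * (24 * (L / v + 1) + (L / u + 1) * 24)) = c1 * L ^ 2 + c2 * L + c3 := by
    rw [hc1d, hc2d, hc3d]
    field_simp
    ring
  rw [e] at h6
  refine h6.trans ?_
  have h7 : c1 * L ^ 2 + c2 * L + c3 ≤ c1 * (l + 2 * u) ^ 2 + c2 * (l + 2 * u) + c3 := by
    have h8 : L ^ 2 ≤ (l + 2 * u) ^ 2 := pow_le_pow_left₀ hL0 hL 2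
    have h9 := mul_le_mul_of_nonneg_left h8 hc0
    have h10 := mul_le_mul_of_nonneg_left hL hc2
    linarith
  refine h7.trans ?_
  have hl0 : 0 ≤ l := h20.le.trans hlx
  set c4 := 4 * c1 * u ^ 2 + 2 * c2 * u + c3 with hc4d
  have hc4 : 0 ≤ c4 := by positivity
  have h11 : c4 ≤ c4 / u * l := by
    rw [div_mul_eq_mul_div, le_div_iff₀ h20]
    exact mul_le_mul_of_nonneg_left hlx hc4
  have h12 : c1 * l ^ 2 ≤ l ^ 2 / 13 := by
    have := mul_le_mul_of_nonneg_right hc1 (sq_nonneg l)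
    linarith
  have h13 : c1 * (l + 2 * u) ^ 2 + c2 * (l + 2 * u) + c3 =
      c1 * l ^ 2 + (4 * c1 * u + c2) * l + c4 := by
    rw [hc4d]; ring
  rw [h13]
  linarith

end Pool.Agent.Helper13.Six
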